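import Mathlib

/-!
Definitions for the question whether asymptotic cones (at all basepoints and all scales)
determine the sequence distortion spectra of a proper geodesic metric space.
-/

open Filter Topology
open scoped NNReal

noncomputable section

namespace Pool.Agent.H78

/-! ### Asymptotic cones -/

/-- A point of the space of sequences underlying the asymptotic cone of `X` with basepoints `x i`
and scales `r i`: a sequence `y` in `X` such that `dist (x i) (y i) / r i` is bounded along
the ultrafilter `ω`. -/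
structure ConeSeq {X : Type} [MetricSpace X] (ω : Ultrafilter ℕ) (x : ℕ → X) (r : ℕ → ℝ≥0) where
  /-- the underlying sequence -/
  seq : ℕ → X
  /-- the rescaled distance to the basepoint is bounded along `ω` -/
  bdd : ∃ C : ℝ, ∀ᶠ i in (ω : Filter ℕ), dist (x i) (seq i) / (r i : ℝ) ≤ C

/-- The rescaled distance between two sequences, as a sequence of real numbers. -/
def rescaled {X : Type} [MetricSpace X] (r : ℕ → ℝ≥0) (y z : ℕ → X) (i : ℕ) : ℝ :=
  dist (y i) (z i) / (r i : ℝ)

/-- A real sequence bounded along an ultrafilter converges along it. -/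
lemma exists_tendsto_of_bdd (ω : Ultrafilter ℕ) (u : ℕ → ℝ) (a b : ℝ)
    (h : ∀ᶠ i in (ω : Filter ℕ), a ≤ u i ∧ u i ≤ b) :
    ∃ L, Tendsto u (ω : Filter ℕ) (𝓝 L) := by
  have hc : IsCompact (Set.Icc a b) := isCompact_Icc
  have hmem : Set.Icc a b ∈ (ω.map u : Ultrafilter ℝ) := by
    rw [Ultrafilter.mem_map]
    exact h
  obtain ⟨L, -, hL⟩ := hc.ultrafilter_le_nhds' (ω.map u) hmem
  exact ⟨L, hL⟩

variable {X : Type} [MetricSpace X] {ω : Ultrafilter ℕ} {x : ℕ → X} {r : ℕ → ℝ≥0}

lemma rescaled_nonneg (y z : ℕ → X) (i : ℕ) : 0 ≤ rescaled r y z i :=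
  div_nonneg dist_nonneg (r i).2

lemma rescaled_triangle (y z w : ℕ → X) (i : ℕ) :
    rescaled r y w i ≤ rescaled r y z i + rescaled r z w i := by
  unfold rescaled
  rw [← add_div]
  exact div_le_div_of_nonneg_right (dist_triangle _ _ _) (r i).2

lemma ConeSeq.exists_tendsto (y z : ConeSeq ω x r) :
    ∃ L, Tendsto (rescaled r y.seq z.seq) (ω : Filter ℕ) (𝓝 L) := by
  obtain ⟨C, hC⟩ := y.bdd
  obtain ⟨C', hC'⟩ := z.bdd
  apply exists_tendsto_of_bdd ω _ 0 (C + C')
  filter_upwards [hC, hC'] with i h1 h2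
  refine ⟨rescaled_nonneg _ _ _, ?_⟩
  have := rescaled_triangle (r := r) y.seq x z.seq i
  have e : rescaled r y.seq x i = dist (x i) (y.seq i) / (r i : ℝ) := by
    simp only [rescaled, dist_comm]
  have e' : rescaled r x z.seq i = dist (x i) (z.seq i) / (r i : ℝ) := rfl
  linarith

/-- The distance on sequences: the limit along `ω` of the rescaled distances. -/
def ConeSeq.cdist (y z : ConeSeq ω x r) : ℝ :=
  limUnder (ω : Filter ℕ) (rescaled r y.seq z.seq)

lemma ConeSeq.tendsto_cdist (y z : ConeSeq ω x r) :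
    Tendsto (rescaled r y.seq z.seq) (ω : Filter ℕ) (𝓝 (y.cdist z)) :=
  tendsto_nhds_limUnder (y.exists_tendsto z)

/-- The pseudometric on sequences whose metric quotient is the asymptotic cone. -/
instance ConeSeq.instPseudoMetricSpace : PseudoMetricSpace (ConeSeq ω x r) where
  dist := ConeSeq.cdist
  dist_self y := by
    refine tendsto_nhds_unique (y.tendsto_cdist y) ?_
    have : rescaled r y.seq y.seq = fun _ => 0 := by
      funext i; simp [rescaled]
    rw [this]
    exact tendsto_const_nhds
  dist_comm y z := by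
    refine tendsto_nhds_unique (y.tendsto_cdist z) ?_
    have : rescaled r y.seq z.seq = rescaled r z.seq y.seq := by
      funext i; simp [rescaled, dist_comm]
    rw [this]
    exact z.tendsto_cdist y
  dist_triangle y z w := by
    refine le_of_tendsto_of_tendsto (y.tendsto_cdist w)
      ((y.tendsto_cdist z).add (z.tendsto_cdist w)) ?_
    exact Eventually.of_forall fun i => rescaled_triangle _ _ _ i

lemma ConeSeq.dist_def (y z : ConeSeq ω x r) : dist y z = y.cdist z := rfl

lemma ConeSeq.tendsto_dist (y z : ConeSeq ω x r) :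
    Tendsto (fun i => dist (y.seq i) (z.seq i) / (r i : ℝ)) (ω : Filter ℕ) (𝓝 (dist y z)) :=
  y.tendsto_cdist z

/-- The asymptotic cone of `X` along the ultrafilter `ω`, with basepoints `x i` and scales `r i`:
the metric space of sequences at bounded rescaled distance from the basepoints, with the limit
distance, two sequences being identified when their limit distance is zero. -/
abbrev Cone {X : Type} [MetricSpace X] (ω : Ultrafilter ℕ) (x : ℕ → X) (r : ℕ → ℝ≥0) : Type :=
  SeparationQuotient (ConeSeq ω x r)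

/-- An ultrafilter on `ℕ` is non-principal when it contains every cofinite set. -/
def NonPrincipal (ω : Ultrafilter ℕ) : Prop := (ω : Filter ℕ) ≤ Filter.cofinite

/-- Two metric spaces are bi-Lipschitz equivalent. -/
def BiLipschitzEquivalent (A B : Type) [MetricSpace A] [MetricSpace B] : Prop :=
  ∃ (F : A ≃ B) (L : ℝ), 1 ≤ L ∧ ∀ a a' : A,
    dist a a' / L ≤ dist (F a) (F a') ∧ dist (F a) (F a') ≤ L * dist a a'

/-- A metric space is geodesic when any two points are joined by an isometric copy of
an interval. -/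
def IsGeodesic (X : Type) [MetricSpace X] : Prop :=
  ∀ x y : X, ∃ γ : ℝ → X, γ 0 = x ∧ γ (dist x y) = y ∧
    ∀ s ∈ Set.Icc 0 (dist x y), ∀ t ∈ Set.Icc 0 (dist x y), dist (γ s) (γ t) = |s - t|

/-! ### Rate functions, growth types and sequence distortion spectra -/

/-- A rate function: a nondecreasing unbounded map from the positive integers to the positive
reals with `f (M N)` comparable to `f N` for each fixed `M`. -/
structure RateFunction where
  /-- the underlying function -/
  f : ℕ+ → ℝ
  pos : ∀ N, 0 < f N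
  mono : Monotone f
  unbounded : ∀ C : ℝ, ∃ N, C < f N
  scaling : ∀ M : ℕ+, ∃ c C : ℝ, 0 < c ∧ 0 < C ∧ ∃ N₀ : ℕ+, ∀ N, N₀ ≤ N →
    c * f N ≤ f (M * N) ∧ f (M * N) ≤ C * f N

/-- Two rate functions have the same growth type. -/
def SameGrowth (f g : RateFunction) : Prop :=
  ∃ c C : ℝ, 0 < c ∧ 0 < C ∧ ∃ N₀ : ℕ+, ∀ N, N₀ ≤ N → c * g.f N ≤ f.f N ∧ f.f N ≤ C * g.f N

lemma SameGrowth.refl (f : RateFunction) : SameGrowth f f :=
  ⟨1, 1, one_pos, one_pos, 1, fun N _ => by simp⟩

lemma SameGrowth.symm {f g : RateFunction} (h : SameGrowth f g) : SameGrowth g f := by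
  obtain ⟨c, C, hc, hC, N₀, h⟩ := h
  refine ⟨C⁻¹, c⁻¹, inv_pos.2 hC, inv_pos.2 hc, N₀, fun N hN => ?_⟩
  obtain ⟨h1, h2⟩ := h N hN
  constructor
  · rw [inv_mul_le_iff₀ hC]; exact h2
  · rw [le_inv_mul_iff₀ hc]; exact h1

lemma SameGrowth.trans {f g k : RateFunction} (h : SameGrowth f g) (h' : SameGrowth g k) :
    SameGrowth f k := by
  obtain ⟨c, C, hc, hC, N₀, h⟩ := h
  obtain ⟨c', C', hc', hC', N₀', h'⟩ := h'
  refine ⟨c * c', C * C', mul_pos hc hc', mul_pos hC hC', max N₀ N₀', fun N hN => ?_⟩
  obtain ⟨h1, h2⟩ := h N (le_trans (le_max_left _ _) hN)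
  obtain ⟨h3, h4⟩ := h' N (le_trans (le_max_right _ _) hN)
  constructor
  · calc c * c' * k.f N = c * (c' * k.f N) := by ring
      _ ≤ c * g.f N := by gcongr
      _ ≤ f.f N := h1
  · calc f.f N ≤ C * g.f N := h2
      _ ≤ C * (C' * k.f N) := by gcongr
      _ = C * C' * k.f N := by ring

/-- The equivalence relation of having the same growth type. -/
instance growthSetoid : Setoid RateFunction where
  r := SameGrowth
  iseqv := ⟨SameGrowth.refl, SameGrowth.symm, SameGrowth.trans⟩

/-- Growth types: classes of rate functions. -/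
abbrev GrowthType : Type := Quotient growthSetoid

/-- The index set `{1, 2, 3, …}`, as a set of integers. -/
def indexN : Set ℤ := {n | 1 ≤ n}

/-- The index set of all integers. -/
def indexZ : Set ℤ := Set.univ

/-- The sequence `p`, indexed by the set of integers `I`, is `f`-distorted. -/
def Distorted {X : Type} [MetricSpace X] (I : Set ℤ) (p : I → X) (f : RateFunction) : Prop :=
  ∃ A B : ℝ, 0 < A ∧ 0 < B ∧ ∃ N₀ : ℕ+, ∀ (m n : I) (k : ℕ+), |(n : ℤ) - (m : ℤ)| = (k : ℤ) →
    N₀ ≤ k → A * f.f k ≤ dist (p n) (p m) ∧ dist (p n) (p m) ≤ B * f.f k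

/-- `f` is realizable in `X` with index set `I`. -/
def Realizable (I : Set ℤ) (X : Type) [MetricSpace X] (f : RateFunction) : Prop :=
  ∃ p : I → X, Distorted I p f

/-- The `I`-indexed sequence distortion spectrum of `X`. -/
def spectrum (I : Set ℤ) (X : Type) [MetricSpace X] : Set GrowthType :=
  {c | ∃ f : RateFunction, Realizable I X f ∧ c = Quotient.mk growthSetoid f}

end Pool.Agent.H78
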