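import Mathlib

/-!
A metric space which is complete, geodesic (in the weak sense of having points at prescribed
distances), `0`-hyperbolic, of cardinality at most continuum and with continuum many directions at
every point is unique up to isometry.
-/

open Filter Topology Cardinal Set

noncomputable section

namespace Pool.Agent.H78

/-- The four-point condition with constant zero. -/
def ZeroHyp (A : Type) [MetricSpace A] : Prop :=
  ∀ x y z w : A, dist x y + dist z w ≤ max (dist x z + dist y w) (dist x w + dist y z)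

/-- The properties characterising the universal real tree of valence continuum. -/
structure UTree (A : Type) [MetricSpace A] : Prop where
  nonempty : Nonempty A
  complete : CompleteSpace A
  segment : ∀ x y : A, ∀ t : ℝ, 0 ≤ t → t ≤ dist x y →
    ∃ z, dist x z = t ∧ dist z y = dist x y - t
  hyp : ZeroHyp A
  branch : ∀ q : A, ∀ D : ℝ, 0 ≤ D → ∃ b : ℝ → A, (∀ j, dist q (b j) = D) ∧
    ∀ j k, j ≠ k → dist (b j) (b k) = 2 * D
  card : #A ≤ 𝔠

/-- Back-and-forth of arbitrary length. -/
theorem back_and_forth {A B : Type} [MetricSpace A] [MetricSpace B] (κ : Cardinal.{0})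
    (hκ : ℵ₀ ≤ κ) (hA : #A ≤ κ) (hB : #B ≤ κ) [Nonempty A]
    (forth : ∀ S : Set (A × B), (∀ p ∈ S, ∀ q ∈ S, dist p.1 q.1 = dist p.2 q.2) → #S < κ →
      ∀ a : A, ∃ b : B, ∀ p ∈ S, dist a p.1 = dist b p.2)
    (back : ∀ S : Set (A × B), (∀ p ∈ S, ∀ q ∈ S, dist p.1 q.1 = dist p.2 q.2) → #S < κ →
      ∀ b : B, ∃ a : A, ∀ p ∈ S, dist a p.1 = dist b p.2) :
    Nonempty (A ≃ᵢ B) := by
  classical
  -- a well-ordered type of order type `κ.ord`
  let W := κ.ord.ToType
  have hW : #W = κ := by simp [W]
  have hinit : ∀ w : W, #(Iio w) < κ := fun w => by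
    simpa using Cardinal.mk_Iio_toType_ord_lt w
  -- an enumeration of `A ⊕ B`
  have hsum : #(A ⊕ B) ≤ #W := by
    rw [hW, Cardinal.mk_sum, Cardinal.lift_id, Cardinal.lift_id]
    exact Cardinal.add_le_of_le hκ hA hB
  obtain ⟨a₀⟩ := ‹Nonempty A›
  obtain ⟨e, he⟩ : ∃ e : W → A ⊕ B, Function.Surjective e := by
    obtain ⟨f⟩ := (Cardinal.le_def _ _).1 hsum
    have : Nonempty (A ⊕ B) := ⟨Sum.inl a₀⟩
    exact ⟨Function.invFun f, Function.invFun_surjective f.injective⟩
  obtain ⟨b₀, -⟩ := forth ∅ (by simp) (by simpa using lt_of_lt_of_le (Cardinal.aleph0_pos) hκ) a₀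
  -- the target condition at stage `w`
  let matches' : W → A × B → Prop := fun w p =>
    (∀ a, e w = Sum.inl a → p.1 = a) ∧ (∀ b, e w = Sum.inr b → p.2 = b)
  let good : (w : W) → ((v : W) → v < w → A × B) → A × B → Prop := fun w rec p =>
    (∀ v (hv : v < w), dist p.1 (rec v hv).1 = dist p.2 (rec v hv).2) ∧ matches' w p
  let step : (w : W) → ((v : W) → v < w → A × B) → A × B := fun w rec =>
    if h : ∃ p, good w rec p then Classical.choose h else (a₀, b₀)
  let F : W → A × B := (wellFounded_lt (α := W)).fix step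
  have hF : ∀ w, F w = step w (fun v _ => F v) := fun w =>
    (wellFounded_lt (α := W)).fix_eq step w
  have key : ∀ w, good w (fun v _ => F v) (F w) := by
    intro w
    induction w using (wellFounded_lt (α := W)).induction with
    | _ w ih =>
      have hex : ∃ p, good w (fun v _ => F v) p := by
        let S : Set (A × B) := F '' (Iio w)
        have hS : ∀ p ∈ S, ∀ q ∈ S, dist p.1 q.1 = dist p.2 q.2 := by
          rintro _ ⟨v, hv, rfl⟩ _ ⟨v', hv', rfl⟩
          rcases lt_trichotomy v v' with h | h | h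
          · have := (ih v' hv').1 v h
            rw [dist_comm (F v).1, dist_comm (F v).2]
            exact this
          · subst h; simp
          · exact (ih v hv).1 v' h
        have hScard : #S < κ := lt_of_le_of_lt Cardinal.mk_image_le (hinit w)
        rcases hew : e w with a | b
        · obtain ⟨b, hb⟩ := forth S hS hScard a
          refine ⟨(a, b), ?_, ?_, ?_⟩
          · intro v hv
            exact hb (F v) ⟨v, hv, rfl⟩
          · intro a' ha'
            rw [hew] at ha'
            exact Sum.inl.inj ha'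
          · intro b' hb'
            rw [hew] at hb'
            cases hb'
        · obtain ⟨a, ha⟩ := back S hS hScard b
          refine ⟨(a, b), ?_, ?_, ?_⟩
          · intro v hv
            exact ha (F v) ⟨v, hv, rfl⟩
          · intro a' ha'
            rw [hew] at ha'
            cases ha'
          · intro b' hb'
            rw [hew] at hb'
            exact Sum.inr.inj hb'
      have : F w = Classical.choose hex := by
        rw [hF w]
        simp only [step]
        rw [dif_pos hex]
      rw [this]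
      exact Classical.choose_spec hex
  have hdist : ∀ v w, dist (F v).1 (F w).1 = dist (F v).2 (F w).2 := by
    intro v w
    rcases lt_trichotomy v w with h | h | h
    · have := (key w).1 v h
      rw [dist_comm (F v).1, dist_comm (F v).2]
      exact this
    · subst h; simp
    · exact (key v).1 w h
  have hsurjA : ∀ a, ∃ w, (F w).1 = a := by
    intro a
    obtain ⟨w, hw⟩ := he (Sum.inl a)
    exact ⟨w, (key w).2.1 a hw⟩
  have hsurjB : ∀ b, ∃ w, (F w).2 = b := by
    intro b
    obtain ⟨w, hw⟩ := he (Sum.inr b)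
    exact ⟨w, (key w).2.2 b hw⟩
  choose wa hwa using hsurjA
  let φ : A → B := fun a => (F (wa a)).2
  have hφ : Isometry φ := by
    refine Isometry.of_dist_eq fun a a' => ?_
    simp only [φ]
    rw [← hdist, hwa, hwa]
  have hφs : Function.Surjective φ := by
    intro b
    obtain ⟨w, hw⟩ := hsurjB b
    refine ⟨(F w).1, ?_⟩
    simp only [φ]
    rw [← hw]
    apply eq_of_dist_eq_zero
    rw [← hdist, hwa, dist_self]
  exact ⟨IsometryEquiv.mk' φ (Function.surjInv hφs) (Function.surjInv_eq hφs) hφ⟩

/-- One-point extension of an isometry between small subsets. -/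
theorem extend {A B : Type} [MetricSpace A] [MetricSpace B] (hA : ZeroHyp A) (hB : UTree B)
    (S : Set (A × B)) (hS : ∀ p ∈ S, ∀ q ∈ S, dist p.1 q.1 = dist p.2 q.2) (hcard : #S < 𝔠)
    (a : A) : ∃ b : B, ∀ p ∈ S, dist a p.1 = dist b p.2 := by
  classical
  have := hB.complete
  rcases S.eq_empty_or_nonempty with rfl | ⟨p₀, hp₀⟩
  · obtain ⟨b⟩ := hB.nonempty
    exact ⟨b, by simp⟩
  set t : A × B → ℝ := fun p => (dist p₀.1 a + dist p₀.1 p.1 - dist a p.1) / 2 with ht
  have ht_le : ∀ p, t p ≤ dist p₀.1 a := fun p => by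
    have := dist_triangle p₀.1 a p.1
    simp only [ht]
    linarith
  have ht_le' : ∀ p, t p ≤ dist p₀.1 p.1 := fun p => by
    have := dist_triangle p₀.1 p.1 a
    rw [dist_comm p.1 a] at this
    simp only [ht]
    linarith
  have ht_nonneg : ∀ p, 0 ≤ t p := fun p => by
    have := dist_triangle a p₀.1 p.1
    rw [dist_comm a p₀.1] at this
    simp only [ht]
    linarith
  set ℓ : ℝ := sSup (t '' S) with hℓ
  have hne : (t '' S).Nonempty := ⟨t p₀, mem_image_of_mem _ hp₀⟩
  have hbdd : BddAbove (t '' S) := ⟨dist p₀.1 a, by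
    rintro _ ⟨p, -, rfl⟩; exact ht_le p⟩
  have hle : ∀ p ∈ S, t p ≤ ℓ := fun p hp => le_csSup hbdd (mem_image_of_mem _ hp)
  have hℓ_le : ℓ ≤ dist p₀.1 a := csSup_le hne (by
    rintro _ ⟨p, -, rfl⟩; exact ht_le p)
  -- a sequence approaching the supremum
  have hseq : ∀ n : ℕ, ∃ p ∈ S, ℓ - 1 / ((n : ℝ) + 1) < t p := by
    intro n
    have : ℓ - 1 / ((n : ℝ) + 1) < ℓ := by
      have : (0 : ℝ) < 1 / ((n : ℝ) + 1) := by positivity
      linarith
    obtain ⟨_, ⟨p, hp, rfl⟩, hlt⟩ := exists_lt_of_lt_csSup hne this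
    exact ⟨p, hp, hlt⟩
  choose P hPS hPt using hseq
  have htlim : Tendsto (fun n => t (P n)) atTop (𝓝 ℓ) := by
    have h1 : Tendsto (fun n : ℕ => ℓ - 1 / ((n : ℝ) + 1)) atTop (𝓝 ℓ) := by
      have := (tendsto_one_div_add_atTop_nhds_zero_nat (𝕜 := ℝ))
      simpa using tendsto_const_nhds.sub this
    exact tendsto_of_tendsto_of_tendsto_of_le_of_le h1 tendsto_const_nhds
      (fun n => (hPt n).le) (fun n => hle _ (hPS n))
  -- points of `B` on the segments
  have hz : ∀ n, ∃ z : B, dist p₀.2 z = t (P n) ∧
      dist z (P n).2 = dist p₀.2 (P n).2 - t (P n) := by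
    intro n
    apply hB.segment
    · exact ht_nonneg _
    · rw [← hS p₀ hp₀ _ (hPS n)]
      exact ht_le' _
  choose z hz1 hz2 using hz
  -- the Gromov product of two points of `S` is at least the minimum
  have hprod : ∀ p ∈ S, ∀ q ∈ S,
      2 * min (t p) (t q) ≤ dist p₀.2 p.2 + dist p₀.2 q.2 - dist p.2 q.2 := by
    intro p hp q hq
    have h4 := hA p₀.1 a p.1 q.1
    rw [← hS p₀ hp₀ p hp, ← hS p₀ hp₀ q hq, ← hS p hp q hq]
    simp only [ht]
    rcases le_max_iff.1 h4 with h | h
    · refine le_trans (mul_le_mul_of_nonneg_left (min_le_right _ _) zero_le_two) ?_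
      linarith
    · refine le_trans (mul_le_mul_of_nonneg_left (min_le_left _ _) zero_le_two) ?_
      linarith
  -- distance between the points `z n`
  have hzz : ∀ n m, dist (z n) (z m) ≤ |t (P n) - t (P m)| := by
    intro n m
    have hp := hprod (P n) (hPS n) (P m) (hPS m)
    -- product of z n and P m
    have h1 := hB.hyp p₀.2 (P n).2 (z n) (P m).2
    have h2 := hB.hyp p₀.2 (P m).2 (z m) (z n)
    have e1 := hz1 n
    have e2 := hz2 n
    have e3 := hz1 m
    have e4 := hz2 m
    rw [dist_comm (z n) (P n).2] at e2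
    rw [dist_comm (z m) (P m).2] at e4
    rw [dist_comm (P m).2 (z n)] at h2
    rw [dist_comm (z m) (z n)] at h2
    rcases le_total (t (P n)) (t (P m)) with hc | hc
    · rw [abs_of_nonpos (by linarith)]
      rw [min_eq_left hc] at hp
      rcases le_max_iff.1 h1 with h | h <;> rcases le_max_iff.1 h2 with h' | h' <;> linarith
    · rw [abs_of_nonneg (by linarith)]
      rw [min_eq_right hc] at hp
      rcases le_max_iff.1 h1 with h | h <;> rcases le_max_iff.1 h2 with h' | h' <;> linarith
  have hcau : CauchySeq z := by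
    have htc := htlim.cauchySeq
    rw [Metric.cauchySeq_iff] at htc ⊢
    intro ε hε
    obtain ⟨N, hN⟩ := htc ε hε
    exact ⟨N, fun m hm n hn => lt_of_le_of_lt (hzz m n) (by
      simpa [Real.dist_eq] using hN m hm n hn)⟩
  obtain ⟨q, hq⟩ := cauchySeq_tendsto_of_complete hcau
  have hq0 : dist p₀.2 q = ℓ := by
    have h1 : Tendsto (fun n => dist p₀.2 (z n)) atTop (𝓝 (dist p₀.2 q)) :=
      tendsto_const_nhds.dist hq
    have h2 : Tendsto (fun n => dist p₀.2 (z n)) atTop (𝓝 ℓ) := by
      simpa only [hz1] using htlim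
    exact tendsto_nhds_unique h1 h2
  -- the distance from `q` to the points of `S`
  have hqp : ∀ p ∈ S, dist q p.2 = ℓ + dist p₀.2 p.2 - 2 * t p := by
    intro p hp
    have hdl : Tendsto (fun n => dist (z n) p.2) atTop (𝓝 (dist q p.2)) :=
      hq.dist tendsto_const_nhds
    have htp := hle p hp
    apply le_antisymm
    · -- upper bound on the distance
      have hub : ∀ n, dist (z n) p.2 ≤
          t (P n) + dist p₀.2 p.2 - 2 * min (t p) (t (P n)) := by
        intro n
        have hpr := hprod p hp (P n) (hPS n)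
        have h1 := hB.hyp p₀.2 (P n).2 (z n) p.2
        have e1 := hz1 n
        have e2 := hz2 n
        rw [dist_comm (z n) (P n).2] at e2
        rw [dist_comm (P n).2 p.2] at h1
        rcases le_total (t p) (t (P n)) with hc | hc
        · rw [min_eq_left hc] at hpr ⊢
          rcases le_max_iff.1 h1 with h | h <;> linarith
        · rw [min_eq_right hc] at hpr ⊢
          rcases le_max_iff.1 h1 with h | h <;> linarith
      have hlim : Tendsto (fun n => t (P n) + dist p₀.2 p.2 - 2 * min (t p) (t (P n))) atTop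
          (𝓝 (ℓ + dist p₀.2 p.2 - 2 * min (t p) ℓ)) := by
        refine (htlim.add_const _).sub (Tendsto.const_mul _ ?_)
        exact tendsto_const_nhds.min htlim
      have := le_of_tendsto_of_tendsto' hdl hlim hub
      rwa [min_eq_left htp] at this
    · -- lower bound on the distance
      have hlb : ∀ n, 2 * min ((dist p₀.2 (z n) + dist p₀.2 p.2 - dist (z n) p.2) / 2) (t (P n))
          ≤ 2 * t p := by
        intro n
        have h1 := hB.hyp p₀.2 (z n) p.2 (P n).2
        have h2 := hA p₀.1 (P n).1 p.1 a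
        have e1 := hz1 n
        have e2 := hz2 n
        rw [hS p₀ hp₀ _ (hPS n), hS p₀ hp₀ _ hp] at h2
        rw [dist_comm (P n).1 p.1, hS p hp _ (hPS n)] at h2
        have e3 : t (P n) = (dist p₀.1 a + dist p₀.2 (P n).2 - dist a (P n).1) / 2 := by
          simp only [ht]; rw [hS p₀ hp₀ _ (hPS n)]
        have e4 : t p = (dist p₀.1 a + dist p₀.2 p.2 - dist a p.1) / 2 := by
          simp only [ht]; rw [hS p₀ hp₀ _ hp]
        rw [dist_comm (P n).1 a, dist_comm p.1 a] at h2
        rcases min_cases ((dist p₀.2 (z n) + dist p₀.2 p.2 - dist (z n) p.2) / 2) (t (P n))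
          with ⟨hm, hc⟩ | ⟨hm, hc⟩ <;> rw [hm]
        · rcases le_max_iff.1 h1 with h | h <;> rcases le_max_iff.1 h2 with h' | h' <;> linarith
        · rcases le_max_iff.1 h1 with h | h <;> rcases le_max_iff.1 h2 with h' | h' <;> linarith
      have hlim : Tendsto (fun n => 2 * min ((dist p₀.2 (z n) + dist p₀.2 p.2
          - dist (z n) p.2) / 2) (t (P n))) atTop
          (𝓝 (2 * min ((dist p₀.2 q + dist p₀.2 p.2 - dist q p.2) / 2) ℓ)) := by
        refine Tendsto.const_mul _ (Tendsto.min ?_ htlim)
        exact (((tendsto_const_nhds.dist hq).add_const _).sub hdl).div_const _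
      have h3 := le_of_tendsto' hlim hlb
      have h4 : (dist p₀.2 q + dist p₀.2 p.2 - dist q p.2) / 2 ≤ ℓ := by
        have := dist_triangle p₀.2 q p.2
        rw [← hq0]; linarith
      rw [min_eq_left h4, hq0] at h3
      linarith
  -- choose an unused direction at `q`
  obtain ⟨b, hb1, hb2⟩ := hB.branch q (dist p₀.1 a - ℓ) (by linarith)
  have hex : ∃ j, ∀ p ∈ S, dist (b j) p.2 = (dist p₀.1 a - ℓ) + dist q p.2 := by
    by_contra hcon
    push Not at hcon
    choose s hsS hsne using hcon
    have hinj : Function.Injective (fun j : ℝ => (⟨s j, hsS j⟩ : S)) := by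
      intro j k hjk
      by_contra hne'
      have hjk' : s j = s k := congrArg Subtype.val hjk
      have l1 : dist (b j) (s j).2 < (dist p₀.1 a - ℓ) + dist q (s j).2 := by
        refine lt_of_le_of_ne ?_ (hsne j)
        have := dist_triangle (b j) q (s j).2
        rw [dist_comm (b j) q, hb1] at this
        exact this
      have l2 : dist (b k) (s j).2 < (dist p₀.1 a - ℓ) + dist q (s j).2 := by
        rw [hjk']
        refine lt_of_le_of_ne ?_ (hsne k)
        have := dist_triangle (b k) q (s k).2
        rw [dist_comm (b k) q, hb1] at this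
        exact this
      have h4 := hB.hyp (b j) (b k) q (s j).2
      rw [hb2 j k hne', dist_comm (b j) q, dist_comm (b k) q, hb1, hb1] at h4
      rcases le_max_iff.1 h4 with h | h <;> linarith
    have hc : #ℝ ≤ #S := Cardinal.mk_le_of_injective hinj
    rw [Cardinal.mk_real] at hc
    exact absurd hcard (not_lt.2 hc)
  obtain ⟨j, hj⟩ := hex
  refine ⟨b j, fun p hp => ?_⟩
  rw [hj p hp, hqp p hp, ← hS p₀ hp₀ p hp]
  simp only [ht]
  ring

/-- Uniqueness of the universal real tree of valence continuum. -/
theorem UTree.isometryEquiv {A B : Type} [MetricSpace A] [MetricSpace B] (hA : UTree A)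
    (hB : UTree B) : Nonempty (A ≃ᵢ B) := by
  have := hA.nonempty
  refine back_and_forth 𝔠 Cardinal.aleph0_le_continuum hA.card hB.card ?_ ?_
  · intro S hS hc a
    exact extend hA.hyp hB S hS hc a
  · intro S hS hc b
    have hS' : ∀ p ∈ (Prod.swap '' S : Set (B × A)), ∀ q ∈ (Prod.swap '' S : Set (B × A)),
        dist p.1 q.1 = dist p.2 q.2 := by
      rintro _ ⟨p, hp, rfl⟩ _ ⟨q, hq, rfl⟩
      exact (hS p hp q hq).symm
    obtain ⟨a, ha⟩ := extend hB.hyp hA (Prod.swap '' S) hS'
      (lt_of_le_of_lt Cardinal.mk_image_le hc) b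
    exact ⟨a, fun p hp => (ha (Prod.swap p) (mem_image_of_mem _ hp)).symm⟩

end Pool.Agent.H78
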