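import Mathlib
import Pool.Agent.H78.ConeDefs
import Pool.Agent.H78.UTree

/-!
Asymptotic cones of Gromov hyperbolic geodesic spaces with uniform branching are universal
real trees of valence continuum.
-/

open Filter Topology Cardinal Set
open scoped NNReal

noncomputable section

namespace Pool.Agent.H78

variable {X : Type} [MetricSpace X] {ω : Ultrafilter ℕ} {x : ℕ → X} {r : ℕ → ℝ≥0}

lemma NonPrincipal.le_atTop (hω : NonPrincipal ω) : (ω : Filter ℕ) ≤ atTop := by
  have := hω
  unfold NonPrincipal at this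
  rwa [Nat.cofinite_eq_atTop] at this

/-- Completeness of the space of cone sequences. -/
theorem completeConeSeq (hω : NonPrincipal ω) : CompleteSpace (ConeSeq ω x r) := by
  classical
  apply Metric.complete_of_convergent_controlled_sequences (fun n => (1 / 2 : ℝ) ^ n)
    (fun n => by positivity)
  intro u hu
  -- the good sets
  let G : ℕ → ℕ → Prop := fun N i => N ≤ i ∧ ∀ n ≤ N, ∀ m ≤ N, n ≤ m →
    rescaled r (u n).seq (u m).seq i ≤ (1 / 2 : ℝ) ^ n
  have hG : ∀ N, ∀ᶠ i in (ω : Filter ℕ), G N i := by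
    intro N
    have h1 : ∀ᶠ i in (ω : Filter ℕ), N ≤ i := hω.le_atTop (eventually_ge_atTop N)
    have h2 : ∀ᶠ i in (ω : Filter ℕ), ∀ n ∈ Finset.range (N + 1), ∀ m ∈ Finset.range (N + 1),
        n ≤ m → rescaled r (u n).seq (u m).seq i ≤ (1 / 2 : ℝ) ^ n := by
      rw [Filter.eventually_all_finset]
      intro n _
      rw [Filter.eventually_all_finset]
      intro m _
      by_cases hnm : n ≤ m
      · have := (u n).tendsto_cdist (u m)
        have hlt : (u n).cdist (u m) < (1 / 2 : ℝ) ^ n := hu n n m le_rfl hnm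
        filter_upwards [this.eventually_lt_const hlt] with i hi _
        exact hi.le
      · exact Eventually.of_forall fun i h => absurd h hnm
    filter_upwards [h1, h2] with i hi1 hi2
    exact ⟨hi1, fun n hn m hm hnm => hi2 n (Finset.mem_range.2 (Nat.lt_succ_of_le hn)) m
      (Finset.mem_range.2 (Nat.lt_succ_of_le hm)) hnm⟩
  let N : ℕ → ℕ := fun i => Nat.findGreatest (fun n => G n i) i
  have hN : ∀ n i, G n i → n ≤ N i ∧ G (N i) i := by
    intro n i h
    refine ⟨Nat.le_findGreatest h.1 h, ?_⟩
    exact Nat.findGreatest_spec (P := fun n => G n i) h.1 h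
  have hest : ∀ n, ∀ᶠ i in (ω : Filter ℕ),
      rescaled r (u n).seq (fun i => (u (N i)).seq i) i ≤ (1 / 2 : ℝ) ^ n := by
    intro n
    filter_upwards [hG n] with i hi
    obtain ⟨h1, h2⟩ := hN n i hi
    exact h2.2 n h1 (N i) le_rfl h1
  let y : ConeSeq ω x r :=
    { seq := fun i => (u (N i)).seq i
      bdd := by
        obtain ⟨C, hC⟩ := (u 0).bdd
        refine ⟨C + 1, ?_⟩
        filter_upwards [hC, hest 0] with i h1 h2
        have := rescaled_triangle (r := r) x (u 0).seq (fun i => (u (N i)).seq i) i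
        simp only [pow_zero] at h2
        unfold rescaled at this h2
        linarith }
  refine ⟨y, ?_⟩
  rw [tendsto_iff_dist_tendsto_zero]
  have hle : ∀ n, dist (u n) y ≤ (1 / 2 : ℝ) ^ n := by
    intro n
    exact le_of_tendsto ((u n).tendsto_dist y) (hest n)
  exact squeeze_zero (fun n => dist_nonneg) hle
    (tendsto_pow_atTop_nhds_zero_of_lt_one (by norm_num) (by norm_num))

/-- Gromov hyperbolic, geodesic with uniform branching. -/
structure Branching (X : Type) [MetricSpace X] : Prop where
  nonempty : Nonempty X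
  ratio : ∀ x y : X, ∀ s : ℝ, 0 ≤ s → s ≤ 1 → ∃ z, dist x z = s * dist x y ∧
    dist z y = (1 - s) * dist x y
  hyp : ∃ δ : ℝ, ∀ x y z w : X,
    dist x y + dist z w ≤ max (dist x z + dist y w) (dist x w + dist y z) + δ
  branch : ∃ b : X → ℝ → ℝ → X,
    (∀ j : ℝ, ∃ C : ℝ, ∀ q D, 0 ≤ D → |dist q (b q D j) - D| ≤ C) ∧
    (∀ j k : ℝ, j ≠ k → ∃ C : ℝ, ∀ q D, 0 ≤ D → |dist (b q D j) (b q D k) - 2 * D| ≤ C)
  card : #X ≤ 𝔠

lemma tendsto_const_div (hω : NonPrincipal ω) (hr : Tendsto r atTop atTop) (C : ℝ) :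
    Tendsto (fun i => C / (r i : ℝ)) (ω : Filter ℕ) (𝓝 0) := by
  have h1 : Tendsto (fun i => (r i : ℝ)) (ω : Filter ℕ) atTop := by
    have := NNReal.tendsto_coe_atTop.2 hr
    exact this.mono_left hω.le_atTop
  exact tendsto_const_nhds.div_atTop h1

lemma eventually_pos (hω : NonPrincipal ω) (hr : Tendsto r atTop atTop) :
    ∀ᶠ i in (ω : Filter ℕ), 0 < (r i : ℝ) := by
  have h1 : Tendsto (fun i => (r i : ℝ)) (ω : Filter ℕ) atTop := by
    have := NNReal.tendsto_coe_atTop.2 hr
    exact this.mono_left hω.le_atTop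
  exact h1.eventually_gt_atTop 0

/-- If the distances differ from `D * r i` by a bounded amount then the cone distance is `D`. -/
lemma dist_eq_of_bdd (hω : NonPrincipal ω) (hr : Tendsto r atTop atTop) (y z : ConeSeq ω x r)
    (D C : ℝ) (h : ∀ᶠ i in (ω : Filter ℕ), |dist (y.seq i) (z.seq i) - D * r i| ≤ C) :
    dist y z = D := by
  refine tendsto_nhds_unique (y.tendsto_dist z) ?_
  rw [tendsto_iff_dist_tendsto_zero]
  refine squeeze_zero' (Eventually.of_forall fun i => dist_nonneg) ?_
    (tendsto_const_div hω hr C)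
  filter_upwards [h, eventually_pos hω hr] with i hi hpos
  rw [Real.dist_eq]
  have : dist (y.seq i) (z.seq i) / (r i : ℝ) - D
      = (dist (y.seq i) (z.seq i) - D * r i) / r i := by
    field_simp
  rw [this, abs_div, abs_of_pos hpos]
  gcongr

theorem Branching.uTree (hX : Branching X) (hω : NonPrincipal ω) (hr : Tendsto r atTop atTop) :
    UTree (Cone ω x r) := by
  have hcomp : CompleteSpace (ConeSeq ω x r) := completeConeSeq hω
  refine ⟨?_, ?_, ?_, ?_, ?_, ?_⟩
  · exact ⟨SeparationQuotient.mk ⟨x, 0, by simp⟩⟩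
  · infer_instance
  · intro a b
    obtain ⟨y, rfl⟩ := SeparationQuotient.surjective_mk a
    obtain ⟨z, rfl⟩ := SeparationQuotient.surjective_mk b
    intro t ht0 ht1
    rw [SeparationQuotient.dist_mk] at ht1
    -- ratio
    obtain ⟨s, hs0, hs1, hs⟩ : ∃ s : ℝ, 0 ≤ s ∧ s ≤ 1 ∧ s * dist y z = t := by
      rcases eq_or_lt_of_le (dist_nonneg : 0 ≤ dist y z) with h | h
      · exact ⟨0, le_rfl, zero_le_one, by rw [zero_mul]; linarith⟩
      · refine ⟨t / dist y z, by positivity, (div_le_one h).2 ht1, ?_⟩
        field_simp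
    choose w hw1 hw2 using fun i => hX.ratio (y.seq i) (z.seq i) s hs0 hs1
    obtain ⟨C, hC⟩ := y.bdd
    obtain ⟨C', hC'⟩ := z.bdd
    let W : ConeSeq ω x r :=
      { seq := w
        bdd := by
          refine ⟨C + (C + C'), ?_⟩
          filter_upwards [hC, hC'] with i h1 h2
          have e1 := rescaled_triangle (r := r) x y.seq w i
          have e2 := rescaled_triangle (r := r) y.seq x z.seq i
          have e3 : rescaled r y.seq w i ≤ rescaled r y.seq z.seq i := by
            unfold rescaled
            apply div_le_div_of_nonneg_right _ (r i).2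
            rw [hw1]
            calc s * dist (y.seq i) (z.seq i) ≤ 1 * dist (y.seq i) (z.seq i) := by
                  gcongr
              _ = _ := one_mul _
          unfold rescaled at e1 e2 e3
          rw [dist_comm (y.seq i) (x i)] at e2
          linarith }
    have hl1 : dist y W = s * dist y z := by
      refine tendsto_nhds_unique (y.tendsto_dist W) ?_
      have : (fun i => dist (y.seq i) (W.seq i) / (r i : ℝ)) =
          fun i => s * (dist (y.seq i) (z.seq i) / (r i : ℝ)) := by
        funext i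
        simp only [W]
        rw [hw1]; ring
      rw [this]
      exact (y.tendsto_dist z).const_mul s
    have hl2 : dist W z = (1 - s) * dist y z := by
      refine tendsto_nhds_unique (W.tendsto_dist z) ?_
      have : (fun i => dist (W.seq i) (z.seq i) / (r i : ℝ)) =
          fun i => (1 - s) * (dist (y.seq i) (z.seq i) / (r i : ℝ)) := by
        funext i
        simp only [W]
        rw [hw2]; ring
      rw [this]
      exact (y.tendsto_dist z).const_mul (1 - s)
    refine ⟨SeparationQuotient.mk W, ?_, ?_⟩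
    · rw [SeparationQuotient.dist_mk, hl1, hs]
    · rw [SeparationQuotient.dist_mk, SeparationQuotient.dist_mk, hl2, ← hs]; ring
  · intro a b c d
    obtain ⟨a, rfl⟩ := SeparationQuotient.surjective_mk a
    obtain ⟨b, rfl⟩ := SeparationQuotient.surjective_mk b
    obtain ⟨c, rfl⟩ := SeparationQuotient.surjective_mk c
    obtain ⟨d, rfl⟩ := SeparationQuotient.surjective_mk d
    simp only [SeparationQuotient.dist_mk]
    obtain ⟨δ, hδ⟩ := hX.hyp
    have h1 := (a.tendsto_dist b).add (c.tendsto_dist d)
    have h2 := (((a.tendsto_dist c).add (b.tendsto_dist d)).max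
      ((a.tendsto_dist d).add (b.tendsto_dist c))).add (tendsto_const_div (r := r) hω hr δ)
    rw [add_zero] at h2
    refine le_of_tendsto_of_tendsto h1 h2 ?_
    filter_upwards [eventually_pos hω hr] with i hpos
    have := hδ (a.seq i) (b.seq i) (c.seq i) (d.seq i)
    rw [← add_div, ← add_div, ← add_div, max_div_div_right hpos.le, ← add_div]
    gcongr
  · intro a D hD
    obtain ⟨q, rfl⟩ := SeparationQuotient.surjective_mk a
    obtain ⟨b, hb1, hb2⟩ := hX.branch
    have hmem : ∀ j : ℝ, ∃ C : ℝ, ∀ᶠ i in (ω : Filter ℕ),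
        dist (x i) (b (q.seq i) (D * r i) j) / (r i : ℝ) ≤ C := by
      intro j
      obtain ⟨C, hC⟩ := hb1 j
      obtain ⟨C', hC'⟩ := q.bdd
      refine ⟨C' + (D + |C|), ?_⟩
      have h1 : ∀ᶠ i in (ω : Filter ℕ), 1 < (r i : ℝ) := by
        have h1 : Tendsto (fun i => (r i : ℝ)) (ω : Filter ℕ) atTop := by
          have := NNReal.tendsto_coe_atTop.2 hr
          exact this.mono_left hω.le_atTop
        exact h1.eventually_gt_atTop 1
      filter_upwards [hC', h1] with i hi hr1
      have hpos : (0 : ℝ) < r i := lt_trans one_pos hr1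
      have e1 := rescaled_triangle (r := r) x q.seq (fun i => b (q.seq i) (D * r i) j) i
      have e2 := hC (q.seq i) (D * r i) (by positivity)
      have e3 : rescaled r q.seq (fun i => b (q.seq i) (D * r i) j) i ≤ D + |C| := by
        unfold rescaled
        rw [div_le_iff₀ hpos]
        have := (abs_le.1 e2).2
        have h3 : |C| ≤ |C| * r i := by
          nlinarith [abs_nonneg C]
        have h4 := le_abs_self C
        nlinarith
      unfold rescaled at e1 e3
      linarith
    refine ⟨fun j => SeparationQuotient.mk ⟨fun i => b (q.seq i) (D * r i) j, hmem j⟩, ?_, ?_⟩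
    · intro j
      rw [SeparationQuotient.dist_mk]
      obtain ⟨C, hC⟩ := hb1 j
      exact dist_eq_of_bdd hω hr _ _ D C
        (Eventually.of_forall fun i => hC (q.seq i) (D * r i) (by positivity))
    · intro j k hjk
      rw [SeparationQuotient.dist_mk]
      obtain ⟨C, hC⟩ := hb2 j k hjk
      refine dist_eq_of_bdd hω hr _ _ (2 * D) C
        (Eventually.of_forall fun i => ?_)
      have := hC (q.seq i) (D * r i) (by positivity)
      simp only
      rwa [mul_assoc]
  · have h1 : #(Cone ω x r) ≤ #(ConeSeq ω x r) := Cardinal.mk_quotient_le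
    have h2 : #(ConeSeq ω x r) ≤ #(ℕ → X) := by
      refine Cardinal.mk_le_of_injective (f := fun y : ConeSeq ω x r => y.seq) ?_
      rintro ⟨a, ha⟩ ⟨b, hb⟩ h
      simp only at h
      subst h
      rfl
    have h3 : #(ℕ → X) ≤ 𝔠 := by
      rw [← Cardinal.power_def, Cardinal.mk_nat]
      calc #X ^ ℵ₀ ≤ 𝔠 ^ ℵ₀ := Cardinal.power_le_power_right hX.card
        _ = 𝔠 := Cardinal.continuum_power_aleph0
    exact h1.trans (h2.trans h3)

/-- Asymptotic cones of two hyperbolic geodesic spaces with uniform branching are isometric. -/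
theorem cones_isometric {X Y : Type} [MetricSpace X] [MetricSpace Y] (hX : Branching X)
    (hY : Branching Y) (ω : Ultrafilter ℕ) (hω : NonPrincipal ω) (r : ℕ → ℝ≥0)
    (hr : Tendsto r atTop atTop) (x : ℕ → X) (y : ℕ → Y) :
    Nonempty (Cone ω x r ≃ᵢ Cone ω y r) :=
  UTree.isometryEquiv (hX.uTree hω hr) (hY.uTree hω hr)

lemma biLipschitzEquivalent_of_isometryEquiv {A B : Type} [MetricSpace A] [MetricSpace B]
    (h : Nonempty (A ≃ᵢ B)) : BiLipschitzEquivalent A B := by
  obtain ⟨e⟩ := h
  refine ⟨e.toEquiv, 1, le_rfl, fun a a' => ?_⟩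
  have : dist (e.toEquiv a) (e.toEquiv a') = dist a a' := e.dist_eq a a'
  rw [this]
  simp

end Pool.Agent.H78
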