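import Mathlib
import Pool.Agent.H78.ConeDefs
import Pool.Agent.H78.ConeTheory

/-!
The hyperbolic plane (upper half-plane model): it is geodesic, Gromov hyperbolic, has uniform
branching, and its horocycles are logarithmically distorted.
-/

open Filter Topology Cardinal Set
open scoped NNReal UpperHalfPlane ComplexConjugate

noncomputable section

namespace Pool.Agent.H78

/-- If two points lie on an isometric copy of the line, they are joined by a geodesic. -/
lemma geodesic_of_line {X : Type} [MetricSpace X] (g : ℝ → X)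
    (hg : ∀ s t, dist (g s) (g t) = |s - t|) (x y : X) (a b : ℝ) (ha : g a = x) (hb : g b = y) :
    ∃ γ : ℝ → X, γ 0 = x ∧ γ (dist x y) = y ∧
    ∀ s ∈ Set.Icc 0 (dist x y), ∀ t ∈ Set.Icc 0 (dist x y), dist (γ s) (γ t) = |s - t| := by
  have hd : dist x y = |a - b| := by rw [← ha, ← hb, hg]
  rcases le_total a b with h | h
  · refine ⟨fun u => g (a + u), by simp [ha], ?_, ?_⟩
    · rw [hd, abs_of_nonpos (by linarith)]
      simp only
      rw [← hb]; congr 1; ring
    · intro s _ t _
      simp only [hg]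
      congr 1; ring
  · refine ⟨fun u => g (a - u), by simp [ha], ?_, ?_⟩
    · rw [hd, abs_of_nonneg (by linarith)]
      simp only
      rw [← hb]; congr 1; ring
    · intro s _ t _
      simp only [hg]
      rw [abs_sub_comm s t]
      congr 1; ring

/-- Unit speed parametrisation of a half-circle orthogonal to the real axis. -/
def semi (c R : ℝ) (hR : 0 < R) (s : ℝ) : ℍ :=
  ⟨⟨c + R * Real.tanh s, R / Real.cosh s⟩, div_pos hR (Real.cosh_pos s)⟩

lemma abs_eq_of_cosh_eq {d t : ℝ} (hd : 0 ≤ d) (h : Real.cosh d = Real.cosh t) : d = |t| := by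
  have h1 : |d| = |t| := le_antisymm (Real.cosh_le_cosh.1 h.le) (Real.cosh_le_cosh.1 h.ge)
  rwa [abs_of_nonneg hd] at h1

lemma dist_semi (c R : ℝ) (hR : 0 < R) (s t : ℝ) :
    dist (semi c R hR s) (semi c R hR t) = |s - t| := by
  apply abs_eq_of_cosh_eq dist_nonneg
  rw [UpperHalfPlane.cosh_dist]
  have hs := Real.cosh_pos s
  have ht := Real.cosh_pos t
  have h1 : dist ((semi c R hR s : ℍ) : ℂ) (semi c R hR t) ^ 2 =
      (R * Real.tanh s - R * Real.tanh t) ^ 2 + (R / Real.cosh s - R / Real.cosh t) ^ 2 := by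
    rw [Complex.dist_eq, Complex.sq_norm, Complex.normSq_apply]
    simp only [semi, UpperHalfPlane.coe_mk, Complex.sub_re, Complex.sub_im]
    ring
  have h2 : (semi c R hR s).im = R / Real.cosh s := rfl
  have h3 : (semi c R hR t).im = R / Real.cosh t := rfl
  rw [h1, h2, h3, Real.cosh_sub, Real.tanh_eq_sinh_div_cosh, Real.tanh_eq_sinh_div_cosh]
  have e1 := Real.cosh_sq s
  have e2 := Real.cosh_sq t
  field_simp
  have e1' : Real.cosh s ^ 2 - Real.sinh s ^ 2 = 1 := Real.cosh_sq_sub_sinh_sq s
  have e2' : Real.cosh t ^ 2 - Real.sinh t ^ 2 = 1 := Real.cosh_sq_sub_sinh_sq t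
  nlinarith [e1, e2]

/-- Unit speed parametrisation of a vertical line. -/
def vert (c : ℝ) (s : ℝ) : ℍ := ⟨⟨c, Real.exp s⟩, Real.exp_pos s⟩

lemma dist_vert (c s t : ℝ) : dist (vert c s) (vert c t) = |s - t| := by
  have h0 : (vert c s).re = (vert c t).re := rfl
  rw [UpperHalfPlane.dist_of_re_eq h0, Real.dist_eq]
  have h1 : (vert c s).im = Real.exp s := rfl
  have h2 : (vert c t).im = Real.exp t := rfl
  rw [h1, h2, Real.log_exp, Real.log_exp]

theorem isGeodesic_hyp : IsGeodesic ℍ := by
  intro z w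
  by_cases h : z.re = w.re
  · refine geodesic_of_line (vert z.re) (dist_vert z.re) z w (Real.log z.im) (Real.log w.im) ?_ ?_
    · exact UpperHalfPlane.ext_re_im (show (vert z.re (Real.log z.im)).re = z.re from rfl)
        (Real.exp_log z.im_pos)
    · exact UpperHalfPlane.ext_re_im (show (vert z.re (Real.log w.im)).re = w.re from h)
        (Real.exp_log w.im_pos)
  · set c : ℝ := (w.re ^ 2 + w.im ^ 2 - z.re ^ 2 - z.im ^ 2) / (2 * (w.re - z.re)) with hc
    have hne : w.re - z.re ≠ 0 := fun h' => h (by linarith)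
    have hcc : c * (2 * (w.re - z.re)) = w.re ^ 2 + w.im ^ 2 - z.re ^ 2 - z.im ^ 2 := by
      rw [hc]; field_simp
    set R : ℝ := √((z.re - c) ^ 2 + z.im ^ 2) with hR
    have hz := z.im_pos
    have hw := w.im_pos
    have hRpos : 0 < R := Real.sqrt_pos.2 (by positivity)
    have hRw : R = √((w.re - c) ^ 2 + w.im ^ 2) := by
      rw [hR]; congr 1; nlinarith
    have key : ∀ v : ℍ, R = √((v.re - c) ^ 2 + v.im ^ 2) →
        semi c R hRpos (Real.arsinh ((v.re - c) / v.im)) = v := by
      intro v hv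
      have hvp := v.im_pos
      have hcosh : Real.cosh (Real.arsinh ((v.re - c) / v.im)) = R / v.im := by
        rw [Real.cosh_arsinh, hv]
        have : 1 + ((v.re - c) / v.im) ^ 2 = ((v.re - c) ^ 2 + v.im ^ 2) / v.im ^ 2 := by
          field_simp; ring
        rw [this, Real.sqrt_div (by positivity), Real.sqrt_sq hvp.le]
      apply UpperHalfPlane.ext_re_im
      · change c + R * Real.tanh _ = v.re
        rw [Real.tanh_eq_sinh_div_cosh, hcosh, Real.sinh_arsinh]
        field_simp
        ring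
      · change R / Real.cosh _ = v.im
        rw [hcosh]
        field_simp
    exact geodesic_of_line (semi c R hRpos) (dist_semi c R hRpos) z w _ _ (key z hR)
      (key w hRw)

lemma IsGeodesic.ratio {X : Type} [MetricSpace X] (h : IsGeodesic X) (x y : X) (s : ℝ)
    (h0 : 0 ≤ s) (h1 : s ≤ 1) : ∃ z, dist x z = s * dist x y ∧
    dist z y = (1 - s) * dist x y := by
  obtain ⟨γ, g0, g1, hg⟩ := h x y
  have hd : (0 : ℝ) ≤ dist x y := dist_nonneg
  have m0 : (0 : ℝ) ∈ Icc 0 (dist x y) := ⟨le_rfl, hd⟩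
  have m1 : dist x y ∈ Icc 0 (dist x y) := ⟨hd, le_rfl⟩
  have ms : s * dist x y ∈ Icc 0 (dist x y) := ⟨by positivity, by nlinarith⟩
  refine ⟨γ (s * dist x y), ?_, ?_⟩
  · have := hg 0 m0 _ ms
    rw [g0] at this
    rw [this, zero_sub, abs_neg, abs_of_nonneg ms.1]
  · have := hg _ ms _ m1
    rw [g1] at this
    rw [this, abs_of_nonpos (by linarith [ms.2])]
    ring

/-- The distance from `z` to the conjugate of `w`. -/
def rho (z w : ℍ) : ℝ := dist (z : ℂ) (conj (w : ℂ))

lemma rho_comm (z w : ℍ) : rho z w = rho w z := by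
  unfold rho
  rw [← Complex.dist_conj_conj (z : ℂ), Complex.conj_conj, dist_comm]

lemma rho_nonneg (z w : ℍ) : 0 ≤ rho z w := dist_nonneg

lemma dist_le_rho (z w : ℍ) : dist (z : ℂ) (w : ℂ) ≤ rho z w := by
  unfold rho
  have hz := z.im_pos
  have hw := w.im_pos
  rw [Complex.dist_eq_re_im, Complex.dist_eq_re_im]
  apply Real.sqrt_le_sqrt
  simp only [Complex.conj_re, Complex.conj_im, UpperHalfPlane.coe_re, UpperHalfPlane.coe_im]
  nlinarith [mul_pos hz hw]

lemma rho_triangle (x y z : ℍ) : rho x z ≤ rho x y + rho y z := by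
  have h1 : dist (x : ℂ) (conj (z : ℂ)) ≤ dist (x : ℂ) (y : ℂ) + dist (y : ℂ) (conj (z : ℂ)) :=
    dist_triangle _ _ _
  have h2 := dist_le_rho x y
  unfold rho at *
  linarith

lemma rho_four (x y z w : ℍ) :
    rho x y * rho z w ≤ 4 * max (rho x z * rho y w) (rho x w * rho y z) := by
  have key : ∀ x y z w : ℍ, rho x z ≤ rho y z → rho x z ≤ rho x w →
      rho x y * rho z w ≤ 4 * (rho x w * rho y z) := by
    intro x y z w h1 h2
    have t1 := rho_triangle x z y
    have t2 := rho_triangle z x w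
    rw [rho_comm z y] at t1
    rw [rho_comm z x] at t2
    have a1 : rho x y ≤ 2 * rho y z := by linarith
    have a2 : rho z w ≤ 2 * rho x w := by linarith
    calc rho x y * rho z w ≤ (2 * rho y z) * (2 * rho x w) :=
          mul_le_mul a1 a2 (rho_nonneg _ _) (by linarith [rho_nonneg y z])
      _ = _ := by ring
  by_cases hA : rho x z ≤ rho y z ∧ rho x z ≤ rho x w ∨
      (rho y w ≤ rho y z ∧ rho y w ≤ rho x w)
  · refine le_trans ?_ (mul_le_mul_of_nonneg_left (le_max_right _ _) (by norm_num))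
    rcases hA with ⟨h1, h2⟩ | ⟨h1, h2⟩
    · exact key x y z w h1 h2
    · have := key y x w z (by rw [rho_comm x w] at *; linarith) h1
      rw [rho_comm y x, rho_comm w z] at this
      calc rho x y * rho z w ≤ 4 * (rho y z * rho x w) := this
        _ = _ := by ring
  · refine le_trans ?_ (mul_le_mul_of_nonneg_left (le_max_left _ _) (by norm_num))
    push Not at hA
    obtain ⟨hA1, hA2⟩ := hA
    rcases le_total (rho x w) (rho y z) with hc | hc
    · -- x w is the smallest
      have b1 : rho x w < rho x z := by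
        by_contra hcon
        push Not at hcon
        exact absurd (hA1 (le_trans hcon hc)) (not_lt.2 hcon)
      have b2 : rho x w < rho y w := by
        by_contra hcon
        push Not at hcon
        exact absurd (hA2 (le_trans hcon hc)) (not_lt.2 hcon)
      have := key x y w z b2.le b1.le
      rw [rho_comm w z] at this
      exact this
    · have b1 : rho y z < rho x z := by
        by_contra hcon
        push Not at hcon
        have := hA1 hcon
        linarith
      have b2 : rho y z < rho y w := by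
        by_contra hcon
        push Not at hcon
        have := hA2 hcon
        linarith
      have := key y x z w b1.le b2.le
      rw [rho_comm y x] at this
      calc rho x y * rho z w ≤ 4 * (rho y w * rho x z) := this
        _ = _ := by ring

lemma cosh_le_exp' {d : ℝ} (hd : 0 ≤ d) : Real.cosh d ≤ Real.exp d := by
  rw [Real.cosh_eq]
  have : Real.exp (-d) ≤ Real.exp d := Real.exp_le_exp.2 (by linarith)
  linarith

lemma exp_le_two_cosh (d : ℝ) : Real.exp d ≤ 2 * Real.cosh d := by
  rw [Real.cosh_eq]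
  have := Real.exp_pos (-d)
  linarith

theorem hyp_four : ∀ x y z w : ℍ,
    dist x y + dist z w ≤ max (dist x z + dist y w) (dist x w + dist y z) + 2 * Real.log 16 := by
  intro x y z w
  set K : ℝ := 4 * √(x.im * y.im) * √(z.im * w.im) with hK
  have hx := x.im_pos
  have hy := y.im_pos
  have hz := z.im_pos
  have hw := w.im_pos
  have hKpos : 0 < K := by positivity
  have hsq : ∀ a b c d : ℝ, 0 < a → 0 < b → 0 < c → 0 < d →
      √(a * b) * √(c * d) = √(a * b * c * d) := by
    intro a b c d ha hb hc hd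
    rw [← Real.sqrt_mul (by positivity)]
    congr 1; ring
  have hK2 : K = 4 * √(x.im * z.im) * √(y.im * w.im) := by
    rw [hK, mul_assoc, mul_assoc, hsq _ _ _ _ hx hy hz hw, hsq _ _ _ _ hx hz hy hw]
    congr 2; ring
  have hK3 : K = 4 * √(x.im * w.im) * √(y.im * z.im) := by
    rw [hK, mul_assoc, mul_assoc, hsq _ _ _ _ hx hy hz hw, hsq _ _ _ _ hx hw hy hz]
    congr 2; ring
  have e1 : Real.cosh (dist x y / 2) * Real.cosh (dist z w / 2) = rho x y * rho z w / K := by
    rw [UpperHalfPlane.cosh_half_dist, UpperHalfPlane.cosh_half_dist, hK]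
    unfold rho
    rw [div_mul_div_comm]
    congr 1; ring
  have e2 : Real.cosh (dist x z / 2) * Real.cosh (dist y w / 2) = rho x z * rho y w / K := by
    rw [UpperHalfPlane.cosh_half_dist, UpperHalfPlane.cosh_half_dist, hK2]
    unfold rho
    rw [div_mul_div_comm]
    congr 1; ring
  have e3 : Real.cosh (dist x w / 2) * Real.cosh (dist y z / 2) = rho x w * rho y z / K := by
    rw [UpperHalfPlane.cosh_half_dist, UpperHalfPlane.cosh_half_dist, hK3]
    unfold rho
    rw [div_mul_div_comm]
    congr 1; ring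
  have h4 := rho_four x y z w
  have main : ∀ P Q : ℝ, 0 ≤ P → 0 ≤ Q →
      rho x y * rho z w ≤ 4 * (K * (Real.cosh (P / 2) * Real.cosh (Q / 2))) →
      dist x y + dist z w ≤ P + Q + 2 * Real.log 16 := by
    intro P Q hP hQ h
    have h1 : Real.exp ((dist x y + dist z w) / 2) ≤ 16 * Real.exp ((P + Q) / 2) := by
      calc Real.exp ((dist x y + dist z w) / 2)
          = Real.exp (dist x y / 2) * Real.exp (dist z w / 2) := by
            rw [← Real.exp_add]; congr 1; ring
        _ ≤ (2 * Real.cosh (dist x y / 2)) * (2 * Real.cosh (dist z w / 2)) :=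
            mul_le_mul (exp_le_two_cosh _) (exp_le_two_cosh _) (Real.exp_pos _).le
              (by linarith [Real.cosh_pos (dist x y / 2)])
        _ = 4 * (rho x y * rho z w / K) := by rw [← e1]; ring
        _ ≤ 4 * (4 * (Real.cosh (P / 2) * Real.cosh (Q / 2))) := by
            gcongr
            rw [div_le_iff₀ hKpos]
            linarith
        _ ≤ 4 * (4 * (Real.exp (P / 2) * Real.exp (Q / 2))) := by
            have c1 := cosh_le_exp' (d := P / 2) (by linarith)
            have c2 := cosh_le_exp' (d := Q / 2) (by linarith)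
            have c3 := Real.cosh_pos (Q / 2)
            gcongr
        _ = 16 * Real.exp ((P + Q) / 2) := by
            rw [← Real.exp_add]
            ring_nf
    have h2 := Real.log_le_log (Real.exp_pos _) h1
    rw [Real.log_exp, Real.log_mul (by norm_num) (Real.exp_pos _).ne', Real.log_exp] at h2
    linarith
  rcases le_total (rho x z * rho y w) (rho x w * rho y z) with hc | hc
  · rw [max_eq_right hc] at h4
    have := main (dist x w) (dist y z) dist_nonneg dist_nonneg (by
      rw [e3, mul_div_cancel₀ _ hKpos.ne']; exact h4)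
    have h5 := le_max_right (dist x z + dist y w) (dist x w + dist y z)
    linarith
  · rw [max_eq_left hc] at h4
    have := main (dist x z) (dist y w) dist_nonneg dist_nonneg (by
      rw [e2, mul_div_cancel₀ _ hKpos.ne']; exact h4)
    have h5 := le_max_left (dist x z + dist y w) (dist x w + dist y z)
    linarith

/-- The branching points in the hyperbolic plane. -/
def hbranch (q : ℍ) (D j : ℝ) : ℍ :=
  ⟨⟨q.re + j * q.im, q.im * Real.exp (-D)⟩, mul_pos q.im_pos (Real.exp_pos _)⟩

lemma cosh_dist_hbranch (q : ℍ) (D j : ℝ) :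
    Real.cosh (dist q (hbranch q D j)) = Real.cosh D + Real.exp D * j ^ 2 / 2 := by
  have hq := q.im_pos
  rw [UpperHalfPlane.cosh_dist, Complex.dist_eq, Complex.sq_norm, Complex.normSq_apply]
  have h1 : (hbranch q D j).im = q.im * Real.exp (-D) := rfl
  have h2 : ((hbranch q D j : ℍ) : ℂ) = ⟨q.re + j * q.im, q.im * Real.exp (-D)⟩ := rfl
  rw [h1, h2]
  simp only [Complex.sub_re, Complex.sub_im, UpperHalfPlane.coe_re, UpperHalfPlane.coe_im]
  rw [Real.cosh_eq, Real.exp_neg]
  have := Real.exp_pos D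
  field_simp
  ring

lemma cosh_dist_hbranch' (q : ℍ) (D j k : ℝ) :
    Real.cosh (dist (hbranch q D j) (hbranch q D k)) = 1 + (j - k) ^ 2 * Real.exp (2 * D) / 2 := by
  have hq := q.im_pos
  rw [UpperHalfPlane.cosh_dist, Complex.dist_eq, Complex.sq_norm, Complex.normSq_apply]
  have h1 : ∀ j, (hbranch q D j).im = q.im * Real.exp (-D) := fun j => rfl
  have h2 : ∀ j, ((hbranch q D j : ℍ) : ℂ) = ⟨q.re + j * q.im, q.im * Real.exp (-D)⟩ :=
    fun j => rfl
  rw [h1, h1, h2, h2]
  simp only [Complex.sub_re, Complex.sub_im]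
  rw [two_mul D, Real.exp_add, Real.exp_neg]
  have := Real.exp_pos D
  field_simp
  ring

theorem branching_hyp : Branching ℍ := by
  refine ⟨⟨UpperHalfPlane.I⟩, isGeodesic_hyp.ratio, ⟨2 * Real.log 16, hyp_four⟩,
    ⟨hbranch, ?_, ?_⟩, ?_⟩
  · intro j
    refine ⟨Real.log (2 + j ^ 2), fun q D hD => ?_⟩
    have h := cosh_dist_hbranch q D j
    have hlow : D ≤ dist q (hbranch q D j) := by
      have : Real.cosh D ≤ Real.cosh (dist q (hbranch q D j)) := by
        rw [h]; have := Real.exp_pos D; nlinarith [sq_nonneg j]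
      have := Real.cosh_le_cosh.1 this
      rwa [abs_of_nonneg hD, abs_of_nonneg dist_nonneg] at this
    have hup : dist q (hbranch q D j) ≤ D + Real.log (2 + j ^ 2) := by
      have h1 : Real.exp (dist q (hbranch q D j)) ≤ Real.exp D * (2 + j ^ 2) := by
        refine le_trans (exp_le_two_cosh _) ?_
        rw [h]
        have := cosh_le_exp' hD
        nlinarith
      have h2 := Real.log_le_log (Real.exp_pos _) h1
      rwa [Real.log_exp, Real.log_mul (Real.exp_pos _).ne' (by positivity), Real.log_exp] at h2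
    rw [abs_of_nonneg (by linarith)]
    linarith
  · intro j k hjk
    have hjk2 : 0 < (j - k) ^ 2 := by
      have : j - k ≠ 0 := sub_ne_zero.2 hjk
      positivity
    refine ⟨max (Real.log (2 + (j - k) ^ 2)) (-Real.log ((j - k) ^ 2 / 2)), fun q D hD => ?_⟩
    have h := cosh_dist_hbranch' q D j k
    have hexp : 1 ≤ Real.exp (2 * D) := Real.one_le_exp (by linarith)
    have hup : dist (hbranch q D j) (hbranch q D k) ≤ 2 * D + Real.log (2 + (j - k) ^ 2) := by
      have h1 : Real.exp (dist (hbranch q D j) (hbranch q D k)) ≤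
          Real.exp (2 * D) * (2 + (j - k) ^ 2) := by
        refine le_trans (exp_le_two_cosh _) ?_
        rw [h]
        nlinarith
      have h2 := Real.log_le_log (Real.exp_pos _) h1
      rwa [Real.log_exp, Real.log_mul (Real.exp_pos _).ne' (by positivity), Real.log_exp] at h2
    have hlow : 2 * D + Real.log ((j - k) ^ 2 / 2) ≤
        dist (hbranch q D j) (hbranch q D k) := by
      have h1 : Real.exp (2 * D) * ((j - k) ^ 2 / 2) ≤
          Real.exp (dist (hbranch q D j) (hbranch q D k)) := by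
        refine le_trans ?_ (cosh_le_exp' dist_nonneg)
        rw [h]
        linarith
      have h2 := Real.log_le_log (by positivity) h1
      rwa [Real.log_exp, Real.log_mul (Real.exp_pos _).ne' (by positivity), Real.log_exp] at h2
    rw [abs_le]
    constructor
    · have := le_max_right (Real.log (2 + (j - k) ^ 2)) (-Real.log ((j - k) ^ 2 / 2))
      linarith
    · have := le_max_left (Real.log (2 + (j - k) ^ 2)) (-Real.log ((j - k) ^ 2 / 2))
      linarith
  · calc #ℍ ≤ #ℂ := Cardinal.mk_le_of_injective (f := fun z : ℍ => (z : ℂ))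
          (fun a b h => UpperHalfPlane.ext h)
      _ = 𝔠 := Cardinal.mk_complex

/-! ### The horocycle -/

/-- The points `n + i`. -/
def horo (n : ℤ) : ℍ := ⟨⟨n, 1⟩, one_pos⟩

lemma dist_horo (n m : ℤ) : dist (horo n) (horo m) = 2 * Real.arsinh (|(n : ℝ) - m| / 2) := by
  rw [UpperHalfPlane.dist_eq]
  have h1 : ∀ n, (horo n).im = 1 := fun _ => rfl
  have h2 : ∀ n : ℤ, ((horo n : ℍ) : ℂ) = ⟨n, 1⟩ := fun n => rfl
  have h3 : dist (⟨n, 1⟩ : ℂ) ⟨m, 1⟩ = |(n : ℝ) - m| := by
    have h0 : (⟨n, 1⟩ : ℂ).im = (⟨m, 1⟩ : ℂ).im := rfl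
    rw [Complex.dist_of_im_eq h0, Real.dist_eq]
  rw [h1, h1, h2, h2, h3]
  simp

lemma mul_sinh_le (M : ℕ) (hM : 1 ≤ M) (y : ℝ) (hy : 0 ≤ y) :
    M * Real.sinh y ≤ Real.sinh (M * y) := by
  induction M, hM using Nat.le_induction with
  | base => simp
  | succ n hn ih =>
    have h1 : ((n + 1 : ℕ) : ℝ) * y = n * y + y := by push_cast; ring
    rw [h1, Real.sinh_add]
    have c1 : 1 ≤ Real.cosh y := Real.one_le_cosh y
    have c2 : 1 ≤ Real.cosh (n * y) := Real.one_le_cosh _
    have s1 : 0 ≤ Real.sinh y := Real.sinh_nonneg_iff.2 hy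
    have s2 : 0 ≤ Real.sinh (n * y) := Real.sinh_nonneg_iff.2 (by positivity)
    push_cast
    nlinarith

lemma arsinh_mul_le (M : ℕ) (hM : 1 ≤ M) (x : ℝ) (hx : 0 ≤ x) :
    Real.arsinh (M * x) ≤ M * Real.arsinh x := by
  have h := mul_sinh_le M hM (Real.arsinh x) (Real.arsinh_nonneg_iff.2 hx)
  rw [Real.sinh_arsinh] at h
  have := Real.arsinh_le_arsinh.2 h
  rwa [Real.arsinh_sinh] at this

/-- The logarithmic rate function `N ↦ 2 arsinh (N / 2)`. -/
def logRate : RateFunction where
  f N := 2 * Real.arsinh ((N : ℕ) / 2)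
  pos N := by
    have : (0 : ℝ) < (N : ℕ) := by exact_mod_cast N.pos
    have := Real.arsinh_pos_iff.2 (show (0 : ℝ) < ((N : ℕ) : ℝ) / 2 by positivity)
    linarith
  mono := by
    intro M N h
    have h' : ((M : ℕ) : ℝ) ≤ ((N : ℕ) : ℝ) := by exact_mod_cast h
    have := Real.arsinh_le_arsinh.2 (show ((M : ℕ) : ℝ) / 2 ≤ ((N : ℕ) : ℝ) / 2 by linarith)
    simp only
    linarith
  unbounded := by
    intro C
    obtain ⟨n, hn⟩ := exists_nat_gt (2 * Real.sinh (C / 2))
    refine ⟨⟨n + 1, Nat.succ_pos n⟩, ?_⟩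
    have h1 : Real.sinh (C / 2) < (((n + 1 : ℕ) : ℝ)) / 2 := by push_cast; linarith
    have h2 := Real.arsinh_lt_arsinh.2 h1
    rw [Real.arsinh_sinh] at h2
    simp only [PNat.mk_coe]
    linarith
  scaling := by
    intro M
    have hM1 : 1 ≤ (M : ℕ) := M.pos
    have hM : (1 : ℝ) ≤ ((M : ℕ) : ℝ) := by exact_mod_cast hM1
    refine ⟨1, M, one_pos, by linarith, 1, fun N _ => ?_⟩
    have hN : (0 : ℝ) ≤ ((N : ℕ) : ℝ) := by positivity
    constructor
    · rw [one_mul]
      have : ((N : ℕ) : ℝ) / 2 ≤ ((M * N : ℕ+) : ℕ) / 2 := by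
        push_cast
        nlinarith
      have := Real.arsinh_le_arsinh.2 this
      linarith
    · have h1 := arsinh_mul_le (M : ℕ) hM1 (((N : ℕ) : ℝ) / 2) (by positivity)
      have h2 : (((M * N : ℕ+) : ℕ) : ℝ) / 2 = ((M : ℕ) : ℝ) * (((N : ℕ) : ℝ) / 2) := by
        push_cast; ring
      rw [h2]
      linarith

theorem realizable_logRate (I : Set ℤ) : Realizable I ℍ logRate := by
  refine ⟨fun n => horo n, 1, 1, one_pos, one_pos, 1, fun m n k hk _ => ?_⟩
  have : dist (horo (n : ℤ)) (horo (m : ℤ)) = logRate.f k := by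
    rw [dist_horo]
    simp only [logRate]
    have : |((n : ℤ) : ℝ) - ((m : ℤ) : ℝ)| = ((k : ℕ) : ℝ) := by
      have h : ((|(n : ℤ) - (m : ℤ)| : ℤ) : ℝ) = ((k : ℤ) : ℝ) := by rw [hk]
      push_cast at h
      rw [h]
    rw [this]
  rw [this]
  simp

lemma logRate_le (N : ℕ+) : logRate.f N ≤ 4 * √(1 + (N : ℕ)) := by
  simp only [logRate]
  set x : ℝ := ((N : ℕ) : ℝ) / 2 with hx
  have hx0 : 0 ≤ x := by positivity
  have h1 : Real.arsinh x ≤ Real.log (1 + 2 * x) := by
    unfold Real.arsinh
    apply Real.log_le_log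
    · positivity
    · have : √(1 + x ^ 2) ≤ 1 + x := by
        rw [Real.sqrt_le_left (by linarith)]
        nlinarith
      linarith
  have h2 : (1 : ℝ) + 2 * x = 1 + (N : ℕ) := by rw [hx]; ring
  rw [h2] at h1
  have hpos : (0 : ℝ) < 1 + (N : ℕ) := by positivity
  have h3 : Real.log (1 + (N : ℕ)) = 2 * Real.log (√(1 + (N : ℕ))) := by
    rw [Real.log_sqrt hpos.le]; ring
  have h4 := Real.log_le_sub_one_of_pos (Real.sqrt_pos.2 hpos)
  linarith

end Pool.Agent.H78
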