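import Mathlib
import Pool.Agent.H78.ConeDefs
import Pool.Agent.H78.ConeTheory
import Pool.Agent.H78.HypPlane

/-!
The geometric realization of the infinite rooted binary tree: it is a proper geodesic space,
`0`-hyperbolic, with uniform branching, and every distorted sequence in it has linear growth.
-/

open Filter Topology Cardinal Set
open scoped NNReal

noncomputable section

namespace Pool.Agent.H78

/-- The geometric realization of the infinite rooted binary tree with edges of length one.
A point is given by its height, that is its distance to the root, and by the left/right choices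
made on the way from the root to it: `path k` is the choice made at the vertex of level `k`, for
the levels below the height; the other entries of `path` are set to `false`. -/
@[ext] structure BinTree where
  /-- the distance to the root -/
  height : ℝ
  height_nonneg : 0 ≤ height
  /-- the choices made on the way from the root -/
  path : ℕ → Bool
  trunc : ∀ k : ℕ, height ≤ k → path k = false

namespace BinTree

/-- The height at which the paths from the root to `p` and to `q` separate. -/
def meet (p q : BinTree) : ℝ :=
  open Classical in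
  if h : p.path = q.path then min p.height q.height
  else min (min p.height q.height) (Nat.find (Function.ne_iff.1 h) : ℕ)

lemma le_meet_iff (p q : BinTree) (t : ℝ) : t ≤ p.meet q ↔
    t ≤ p.height ∧ t ≤ q.height ∧ ∀ k : ℕ, (k : ℝ) < t → p.path k = q.path k := by
  classical
  unfold meet
  split_ifs with h
  · rw [le_min_iff, h]
    simp
  · rw [le_min_iff, le_min_iff]
    constructor
    · rintro ⟨⟨h1, h2⟩, h3⟩
      refine ⟨h1, h2, fun k hk => ?_⟩
      have : k < Nat.find (Function.ne_iff.1 h) := by
        exact_mod_cast lt_of_lt_of_le hk h3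
      have := Nat.find_min (Function.ne_iff.1 h) this
      simpa using this
    · rintro ⟨h1, h2, h3⟩
      refine ⟨⟨h1, h2⟩, ?_⟩
      by_contra hcon
      push Not at hcon
      exact Nat.find_spec (Function.ne_iff.1 h) (h3 _ hcon)

lemma meet_comm (p q : BinTree) : p.meet q = q.meet p := by
  have key : ∀ p q : BinTree, p.meet q ≤ q.meet p := by
    intro p q
    rw [le_meet_iff]
    obtain ⟨h1, h2, h3⟩ := (le_meet_iff p q _).1 le_rfl
    exact ⟨h2, h1, fun k hk => (h3 k hk).symm⟩
  exact le_antisymm (key p q) (key q p)

lemma meet_self (p : BinTree) : p.meet p = p.height := by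
  apply le_antisymm
  · exact ((le_meet_iff p p _).1 le_rfl).1
  · rw [le_meet_iff]; simp

lemma meet_le_left (p q : BinTree) : p.meet q ≤ p.height := ((le_meet_iff p q _).1 le_rfl).1

lemma meet_le_right (p q : BinTree) : p.meet q ≤ q.height := ((le_meet_iff p q _).1 le_rfl).2.1

lemma min_meet_le (p q s : BinTree) : min (p.meet q) (q.meet s) ≤ p.meet s := by
  obtain ⟨h1, h2, h3⟩ := (le_meet_iff p q _).1 le_rfl
  obtain ⟨h4, h5, h6⟩ := (le_meet_iff q s _).1 le_rfl
  rw [le_meet_iff]
  refine ⟨le_trans (min_le_left _ _) h1, le_trans (min_le_right _ _) h5, fun k hk => ?_⟩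
  rw [h3 k (lt_of_lt_of_le hk (min_le_left _ _)), h6 k (lt_of_lt_of_le hk (min_le_right _ _))]

/-- The path metric of the tree. -/
instance instMetricSpace : MetricSpace BinTree where
  dist p q := p.height + q.height - 2 * p.meet q
  dist_self p := by simp only [meet_self]; ring
  dist_comm p q := by simp only [meet_comm p q]; ring
  dist_triangle p q s := by
    have h1 := min_meet_le p q s
    have h2 := meet_le_right p q
    have h3 := meet_le_left q s
    rcases min_le_iff.1 h1 with h | h <;> linarith
  eq_of_dist_eq_zero := by
    intro p q h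
    obtain ⟨h1, h2, h3⟩ := (le_meet_iff p q _).1 le_rfl
    have hp : p.height = p.meet q := by linarith
    have hq : q.height = p.meet q := by linarith
    have hpath : p.path = q.path := by
      funext k
      by_cases hk : (k : ℝ) < p.meet q
      · exact h3 k hk
      · push Not at hk
        rw [p.trunc k (by rw [hp]; exact hk), q.trunc k (by rw [hq]; exact hk)]
    exact BinTree.ext (by rw [hp, hq]) hpath

lemma dist_def (p q : BinTree) : dist p q = p.height + q.height - 2 * p.meet q := rfl

theorem zeroHyp : ZeroHyp BinTree := by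
  intro x y z w
  simp only [dist_def]
  have a1 := min_meet_le x z y
  have a2 := min_meet_le x w y
  have a3 := min_meet_le z x w
  have a4 := min_meet_le z y w
  have a5 := min_meet_le x y z
  have a6 := min_meet_le x w z
  have a7 := min_meet_le x y w
  have a8 := min_meet_le x z w
  have a9 := min_meet_le y x z
  have a10 := min_meet_le y w z
  have a11 := min_meet_le y x w
  have a12 := min_meet_le y z w
  rw [meet_comm z y] at *
  rw [meet_comm w y] at *
  rw [meet_comm z x] at *
  rw [meet_comm w z] at *
  rw [meet_comm y x] at *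
  rw [le_max_iff]
  simp only [min_le_iff] at *
  by_contra hcon
  push Not at hcon
  obtain ⟨c1, c2⟩ := hcon
  rcases a1 with a1 | a1 <;> rcases a2 with a2 | a2 <;> rcases a3 with a3 | a3 <;>
    rcases a4 with a4 | a4 <;> linarith

/-- The point at height `t` on the ray starting at the root and making the choices `a`. -/
def ray (a : ℕ → Bool) (t : ℝ) : BinTree where
  height := max t 0
  height_nonneg := le_max_right _ _
  path := fun k => if (k : ℝ) < t then a k else false
  trunc := by
    intro k hk
    have : t ≤ k := le_trans (le_max_left _ _) hk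
    rw [if_neg (not_lt.2 this)]

lemma le_meet_ray_iff (a b : ℕ → Bool) {s t : ℝ} (hs : 0 ≤ s) (ht : 0 ≤ t) (u : ℝ) :
    u ≤ (ray a s).meet (ray b t) ↔ u ≤ s ∧ u ≤ t ∧ ∀ k : ℕ, (k : ℝ) < u → a k = b k := by
  rw [le_meet_iff]
  have e1 : (ray a s).height = s := max_eq_left hs
  have e2 : (ray b t).height = t := max_eq_left ht
  rw [e1, e2]
  constructor
  · rintro ⟨h1, h2, h3⟩
    refine ⟨h1, h2, fun k hk => ?_⟩
    have := h3 k hk
    simpa [ray, lt_of_lt_of_le hk h1, lt_of_lt_of_le hk h2] using this
  · rintro ⟨h1, h2, h3⟩
    refine ⟨h1, h2, fun k hk => ?_⟩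
    simpa [ray, lt_of_lt_of_le hk h1, lt_of_lt_of_le hk h2] using h3 k hk

lemma height_ray (a : ℕ → Bool) {s : ℝ} (hs : 0 ≤ s) : (ray a s).height = s := max_eq_left hs

lemma dist_ray (a : ℕ → Bool) {s t : ℝ} (hs : 0 ≤ s) (ht : 0 ≤ t) :
    dist (ray a s) (ray a t) = |s - t| := by
  have hm : (ray a s).meet (ray a t) = min s t := by
    apply le_antisymm
    · have := (le_meet_ray_iff a a hs ht _).1 le_rfl
      exact le_min this.1 this.2.1
    · rw [le_meet_ray_iff a a hs ht]
      exact ⟨min_le_left _ _, min_le_right _ _, fun _ _ => rfl⟩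
  rw [dist_def, height_ray a hs, height_ray a ht, hm]
  rcases le_total s t with h | h
  · rw [min_eq_left h, abs_of_nonpos (by linarith)]; ring
  · rw [min_eq_right h, abs_of_nonneg (by linarith)]; ring

lemma ray_self (p : BinTree) : ray p.path p.height = p := by
  apply BinTree.ext
  · exact height_ray _ p.height_nonneg
  · funext k
    simp only [ray]
    split_ifs with h
    · rfl
    · exact (p.trunc k (not_lt.1 h)).symm

lemma meet_nonneg (p q : BinTree) : 0 ≤ p.meet q := by
  rw [le_meet_iff]
  refine ⟨p.height_nonneg, q.height_nonneg, fun k hk => ?_⟩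
  have : (0 : ℝ) ≤ k := Nat.cast_nonneg k
  exact absurd hk (not_lt.2 this)

theorem isGeodesic : IsGeodesic BinTree := by
  intro p q
  set m := p.meet q with hm
  have hmp : m ≤ p.height := meet_le_left p q
  have hmq : m ≤ q.height := meet_le_right p q
  have hm0 : 0 ≤ m := meet_nonneg p q
  have hd : dist p q = p.height + q.height - 2 * m := dist_def p q
  -- distance between a point below `p` and a point below `q`
  have hcross : ∀ s t, m ≤ s → s ≤ p.height → m ≤ t → t ≤ q.height →
      dist (ray p.path s) (ray q.path t) = s + t - 2 * m := by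
    intro s t h1 h2 h3 h4
    have hs : 0 ≤ s := hm0.trans h1
    have ht : 0 ≤ t := hm0.trans h3
    have : (ray p.path s).meet (ray q.path t) = m := by
      apply le_antisymm
      · obtain ⟨a1, a2, a3⟩ := (le_meet_ray_iff p.path q.path hs ht _).1 le_rfl
        rw [hm, le_meet_iff]
        exact ⟨a1.trans h2, a2.trans h4, a3⟩
      · rw [le_meet_ray_iff p.path q.path hs ht]
        obtain ⟨a1, a2, a3⟩ := (le_meet_iff p q m).1 le_rfl
        exact ⟨h1, h3, a3⟩
    rw [dist_def, height_ray _ hs, height_ray _ ht, this]
  refine ⟨fun u => if u ≤ p.height - m then ray p.path (p.height - u)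
    else ray q.path (2 * m - p.height + u), ?_, ?_, ?_⟩
  · simp only
    rw [if_pos (by linarith), sub_zero, ray_self]
  · simp only
    split_ifs with h
    · have hqm : q.height = m := by linarith
      have h1 : p.height - dist p q = m := by linarith
      rw [h1]
      -- both are the branching point
      apply eq_of_dist_eq_zero
      have := hcross m q.height le_rfl hmp (by linarith) le_rfl
      rw [ray_self] at this
      rw [this]; linarith
    · have : 2 * m - p.height + dist p q = q.height := by linarith
      rw [this, ray_self]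
  · intro s hs t ht
    simp only
    split_ifs with h1 h2 h2
    · rw [dist_ray _ (by linarith) (by linarith), abs_sub_comm s t]
      congr 1; ring
    · rw [hcross _ _ (by linarith) (by linarith [hs.1]) (by push Not at h2; linarith)
        (by linarith [ht.2])]
      push Not at h2
      rw [abs_of_nonpos (by linarith)]; ring
    · rw [dist_comm, hcross _ _ (by linarith) (by linarith [ht.1]) (by push Not at h1; linarith)
        (by linarith [hs.2])]
      push Not at h1
      rw [abs_of_nonneg (by linarith)]; ring
    · push Not at h1 h2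
      rw [dist_ray _ (by linarith) (by linarith)]
      congr 1; ring

/-- The root of the tree. -/
def root : BinTree where
  height := 0
  height_nonneg := le_rfl
  path := fun _ => false
  trunc := fun _ _ => rfl

lemma dist_root (p : BinTree) : dist root p = p.height := by
  rw [dist_def]
  have h1 : root.meet p = 0 := le_antisymm (meet_le_left root p) (meet_nonneg root p)
  have h2 : root.height = 0 := rfl
  rw [h1, h2]; ring

instance instProperSpace : ProperSpace BinTree := by
  have hK : ∀ R : ℝ, IsCompact {p : BinTree | p.height ≤ R} := by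
    intro R
    set N := ⌈R⌉₊ with hN
    let ext : (Fin N → Bool) → (ℕ → Bool) := fun a k => if h : k < N then a ⟨k, h⟩ else false
    have hsub : {p : BinTree | p.height ≤ R} =
        (⋃ a ∈ Set.range ext, (ray a) '' (Icc 0 R)) ∩ {p | p.height ≤ R} := by
      apply Set.Subset.antisymm
      · intro p hp
        refine ⟨?_, hp⟩
        simp only [mem_iUnion]
        refine ⟨p.path, ⟨fun k => p.path k, ?_⟩, p.height, ⟨p.height_nonneg, hp⟩, ray_self p⟩
        funext k
        simp only [ext]
        split_ifs with h
        · rfl
        · symm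
          apply p.trunc
          push Not at h
          calc p.height ≤ R := hp
            _ ≤ N := Nat.le_ceil R
            _ ≤ k := by exact_mod_cast h
      · exact inter_subset_right
    have hcomp : IsCompact (⋃ a ∈ Set.range ext, (ray a) '' (Icc 0 R)) := by
      apply (Set.finite_range ext).isCompact_biUnion
      intro a _
      apply isCompact_Icc.image_of_continuousOn
      rw [Metric.continuousOn_iff]
      intro b hb ε hε
      refine ⟨ε, hε, fun c hc hcb => ?_⟩
      rw [dist_ray a hc.1 hb.1]
      rwa [Real.dist_eq] at hcb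
    rw [hsub]
    apply hcomp.inter_right
    have : {p : BinTree | p.height ≤ R} = Metric.closedBall root R := by
      ext p
      simp only [mem_ofPred_eq, Metric.mem_closedBall, dist_comm p root, dist_root]
    rw [this]
    exact Metric.isClosed_closedBall
  refine ⟨fun x r => ?_⟩
  apply (hK (x.height + r)).of_isClosed_subset Metric.isClosed_closedBall
  intro p hp
  rw [Metric.mem_closedBall] at hp
  have := dist_triangle root x p
  rw [dist_root, dist_root, dist_comm x p] at this
  simp only [mem_ofPred_eq]
  linarith

/-- Follow the path to `q` and then make the choices `a`. -/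
def graft (q : BinTree) (a : ℕ → Bool) (k : ℕ) : Bool :=
  if k < ⌈q.height⌉₊ then q.path k else a (k - ⌈q.height⌉₊)

theorem branching : Branching BinTree := by
  have hcard : #ℝ = #(ℕ → Bool) := by
    rw [Cardinal.mk_real, ← Cardinal.power_def, Cardinal.mk_nat, Cardinal.mk_bool,
      Cardinal.two_power_aleph0]
  obtain ⟨e⟩ := Cardinal.eq.1 hcard
  refine ⟨⟨root⟩, isGeodesic.ratio, ⟨0, fun x y z w => by simpa using zeroHyp x y z w⟩,
    ⟨fun q D j => ray (q.graft (e j)) (q.height + D), ?_, ?_⟩, ?_⟩
  · intro j
    refine ⟨0, fun q D hD => ?_⟩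
    have hq := q.height_nonneg
    have hm : q.meet (ray (q.graft (e j)) (q.height + D)) = q.height := by
      apply le_antisymm (meet_le_left _ _)
      rw [le_meet_iff]
      refine ⟨le_rfl, by rw [height_ray _ (by linarith)]; linarith, fun k hk => ?_⟩
      have h1 : k < ⌈q.height⌉₊ := Nat.lt_ceil.2 hk
      have h2 : (k : ℝ) < q.height + D := by linarith
      simp [ray, graft, h1, h2]
    rw [dist_def, hm, height_ray _ (by linarith)]
    have : q.height + (q.height + D) - 2 * q.height - D = 0 := by ring
    rw [this]; simp
  · intro j k hjk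
    have hne : e j ≠ e k := fun h => hjk (e.injective h)
    obtain ⟨n, hn⟩ := Function.ne_iff.1 hne
    refine ⟨2 * (n + 1), fun q D hD => ?_⟩
    have hq := q.height_nonneg
    have hD' : 0 ≤ q.height + D := by linarith
    set m := (ray (q.graft (e j)) (q.height + D)).meet (ray (q.graft (e k)) (q.height + D))
      with hm
    have h1 : q.height ≤ m := by
      rw [hm, le_meet_ray_iff _ _ hD' hD']
      refine ⟨by linarith, by linarith, fun i hi => ?_⟩
      have : i < ⌈q.height⌉₊ := Nat.lt_ceil.2 hi
      simp [graft, this]
    have h2 : m ≤ q.height + 1 + n := by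
      by_contra hcon
      push Not at hcon
      obtain ⟨-, -, h3⟩ := (le_meet_ray_iff _ _ hD' hD' m).1 le_rfl
      have hlt : ((⌈q.height⌉₊ + n : ℕ) : ℝ) < m := by
        have := Nat.ceil_lt_add_one hq
        push_cast
        linarith
      have h4 := h3 (⌈q.height⌉₊ + n) hlt
      simp only [graft, Nat.not_lt.2 (Nat.le_add_right _ _), if_false,
        Nat.add_sub_cancel_left] at h4
      exact hn h4
    rw [dist_def, height_ray _ hD', height_ray _ hD', ← hm, abs_le]
    constructor <;> linarith
  · have h1 : #BinTree ≤ #(ℝ × (ℕ → Bool)) := by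
      refine Cardinal.mk_le_of_injective (f := fun p : BinTree => (p.height, p.path)) ?_
      intro p q h
      simp only [Prod.mk.injEq] at h
      exact BinTree.ext h.1 h.2
    refine h1.trans ?_
    rw [Cardinal.mk_prod, Cardinal.lift_id, Cardinal.lift_id, ← hcard, Cardinal.mk_real,
      Cardinal.continuum_mul_self]

end BinTree

/-- In a `0`-hyperbolic space every distorted sequence has (at least) linear growth. -/
theorem linear_growth {X : Type} [MetricSpace X] (hX : ZeroHyp X) (p : ℕ → X) (g : ℕ → ℝ)
    (A B : ℝ) (hA : 0 < A) (hB : 0 < B) (hgnn : ∀ k, 0 ≤ g k)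
    (hg : ∀ C : ℝ, ∃ K : ℕ, ∀ k, K ≤ k → C < g k)
    (N₀ : ℕ) (h : ∀ n k : ℕ, N₀ ≤ k → A * g k ≤ dist (p n) (p (n + k)) ∧
      dist (p n) (p (n + k)) ≤ B * g k) :
    ∃ c : ℝ, 0 < c ∧ ∃ K : ℕ, ∀ k, K ≤ k → c * k ≤ g k := by
  classical
  -- bound on jumps
  obtain ⟨J, hJ0, hJ⟩ : ∃ J : ℝ, 0 ≤ J ∧ ∀ n, dist (p n) (p (n + 1)) ≤ J := by
    refine ⟨B * g (N₀ + 1) + B * g N₀, by
      have := hgnn (N₀ + 1); have := hgnn N₀; positivity, fun n => ?_⟩
    have h1 := (h n (N₀ + 1) (Nat.le_succ _)).2
    have h2 := (h (n + 1) N₀ le_rfl).2
    have h3 := dist_triangle (p n) (p (n + (N₀ + 1))) (p (n + 1))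
    have e : n + 1 + N₀ = n + (N₀ + 1) := by ring
    rw [e] at h2
    rw [dist_comm (p (n + (N₀ + 1)))] at h3
    linarith
  obtain ⟨W₁, hW₁⟩ := hg ((3 * J + 1) / A)
  set W := max (max W₁ N₀) 1 with hW
  have hWpos : 0 < W := lt_of_lt_of_le one_pos (le_max_right _ _)
  -- points at distance at most `3 J + 1` have close indices
  have hclose : ∀ a b : ℕ, a ≤ b → dist (p a) (p b) ≤ 3 * J + 1 → b < a + W := by
    intro a b hab hd
    by_contra hcon
    push Not at hcon
    obtain ⟨k, rfl⟩ := Nat.exists_eq_add_of_le hab
    have hk : W ≤ k := by omega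
    have h1 : W₁ ≤ k := le_trans (le_trans (le_max_left _ _) (le_max_left _ _)) hk
    have h2 : N₀ ≤ k := le_trans (le_trans (le_max_right _ _) (le_max_left _ _)) hk
    have h3 := hW₁ k h1
    have h4 := (h a k h2).1
    rw [div_lt_iff₀ hA] at h3
    linarith
  -- main estimate
  have main : ∀ N : ℕ, (N : ℝ) ≤ W * (dist (p 0) (p N) + 1) := by
    intro N
    set a := p 0 with ha
    set z := p N with hz
    set D := dist a z with hD
    -- coordinates relative to the segment `[a, z]`
    set π : X → ℝ := fun x => (dist a x + D - dist x z) / 2 with hπ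
    set η : X → ℝ := fun x => (dist a x + dist x z - D) / 2 with hη
    have hηnn : ∀ x, 0 ≤ η x := fun x => by
      have := dist_triangle a x z
      simp only [hη]; linarith
    have hup : ∀ x y, dist x y ≤ η x + η y + |π x - π y| := by
      intro x y
      have h4 := hX a z x y
      rw [dist_comm z y, dist_comm z x] at h4
      rcases le_max_iff.1 h4 with h | h
      · refine le_trans ?_ (add_le_add le_rfl (le_abs_self _))
        simp only [hη, hπ]; linarith
      · have h5 := neg_le_abs (π x - π y)
        have h6 : dist x y ≤ η x + η y + -(π x - π y) := by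
          simp only [hη, hπ]; linarith
        linarith
    have hlow : ∀ x y, π y < π x → η x + η y + (π x - π y) ≤ dist x y := by
      intro x y hxy
      have h4 := hX a x z y
      simp only [hπ] at hxy
      rw [dist_comm x z] at h4
      rcases le_max_iff.1 h4 with h | h
      · simp only [hη, hπ]
        rw [dist_comm x z, dist_comm y z]
        linarith
      · exfalso
        rw [dist_comm x z, dist_comm y z] at hxy
        linarith
    have hπa : π a = 0 := by simp only [hπ, dist_self]; ring
    have hηa : η a = 0 := by simp only [hη, dist_self]; ring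
    have hπz : π z = D := by simp only [hπ, dist_self]; ring
    have hηz : η z = 0 := by simp only [hη, dist_self]; ring
    have step : ∀ k : ℕ, (k : ℝ) ≤ D → ∃ n ≤ N, n ≤ W * k ∧ η (p n) ≤ J ∧
        (k : ℝ) ≤ π (p n) ∧ π (p n) ≤ k + J := by
      intro k
      induction k with
      | zero =>
        intro _
        refine ⟨0, Nat.zero_le _, by simp, ?_, ?_, ?_⟩
        · rw [← ha, hηa]; exact hJ0
        · rw [← ha, hπa]; simp
        · rw [← ha, hπa]; simpa using hJ0
      | succ k ih =>
        intro hk
        push_cast at hk
        obtain ⟨n, hnN, hnW, hn1, hn2, hn3⟩ := ih (by linarith)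
        have hex : ∃ i, (k : ℝ) + 1 ≤ π (p i) := ⟨N, by rw [← hz, hπz]; exact hk⟩
        set i := Nat.find hex with hi
        have hispec : (k : ℝ) + 1 ≤ π (p i) := Nat.find_spec hex
        have hiN : i ≤ N := Nat.find_min' hex (by rw [← hz, hπz]; exact hk)
        have hi0 : i ≠ 0 := by
          intro h0
          rw [h0, ← ha, hπa] at hispec
          have : (0 : ℝ) ≤ k := Nat.cast_nonneg k
          linarith
        obtain ⟨i', hi'⟩ := Nat.exists_eq_succ_of_ne_zero hi0
        have hi'lt : π (p i') < (k : ℝ) + 1 := by
          have : i' < Nat.find hex := by omega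
          exact not_le.1 (Nat.find_min hex this)
        have hjump : dist (p i) (p i') ≤ J := by
          rw [hi', dist_comm]; exact hJ i'
        have hl := hlow (p i) (p i') (by linarith)
        have g1 : η (p i) ≤ J := by linarith [hηnn (p i')]
        have g2 : π (p i) ≤ (k : ℝ) + 1 + J := by linarith [hηnn (p i'), hηnn (p i)]
        have hdist : dist (p n) (p i) ≤ 3 * J + 1 := by
          have h5 := hup (p n) (p i)
          have h6 : |π (p n) - π (p i)| ≤ J + 1 := by
            rw [abs_le]; constructor <;> linarith
          linarith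
        refine ⟨i, hiN, ?_, g1, by push_cast; exact hispec, by push_cast; exact g2⟩
        rcases le_total n i with hni | hni
        · have := hclose n i hni hdist
          rw [Nat.mul_succ]; omega
        · rw [Nat.mul_succ]; omega
    have hD0 : 0 ≤ D := dist_nonneg
    obtain ⟨n, hnN, hnW, hn1, hn2, hn3⟩ := step ⌊D⌋₊ (Nat.floor_le hD0)
    have hfl := Nat.lt_floor_add_one D
    have hπle : π (p n) ≤ D := by
      have := dist_triangle a z (p n)
      rw [dist_comm z (p n)] at this
      simp only [hπ]; linarith
    have hdist : dist (p n) (p N) ≤ 3 * J + 1 := by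
      have h5 := hup (p n) (p N)
      rw [← hz, hηz, hπz] at h5
      rw [← hz]
      have h6 : |π (p n) - D| ≤ 1 := by
        rw [abs_le]; constructor <;> linarith
      linarith
    have h7 := hclose n N hnN hdist
    have h8 : N ≤ W * ⌊D⌋₊ + W := by omega
    calc (N : ℝ) ≤ ((W * ⌊D⌋₊ + W : ℕ) : ℝ) := by exact_mod_cast h8
      _ = W * (⌊D⌋₊ + 1) := by push_cast; ring
      _ ≤ W * (D + 1) := by
        have := Nat.floor_le hD0
        gcongr
  have hWr : (0 : ℝ) < W := by exact_mod_cast hWpos
  refine ⟨1 / (2 * W * B), by positivity, max N₀ (2 * W), fun k hk => ?_⟩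
  have hk1 : N₀ ≤ k := le_trans (le_max_left _ _) hk
  have hk2 : 2 * W ≤ k := le_trans (le_max_right _ _) hk
  have h1 := main k
  have h2 := (h 0 k hk1).2
  rw [zero_add] at h2
  have h3 : (2 : ℝ) * W ≤ k := by exact_mod_cast hk2
  have h4 : (k : ℝ) ≤ W * (B * g k + 1) := le_trans h1 (by gcongr)
  rw [div_mul_eq_mul_div, one_mul, div_le_iff₀ (by positivity)]
  nlinarith

end Pool.Agent.H78
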