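import Mathlib

/-!
Binomial random subsets of a finite set: moments, a second-moment inequality and monotonicity
in the density; the fourteen-element product-Schur configuration.
-/

open Finset

noncomputable section

namespace Pool.Agent.H78.PSchur

open Classical in
/-- The expectation of `f(S)` when `S` is the binomial random subset of `U` of density `p`. -/
def E (U : Finset ℕ) (p : ℝ) (f : Finset ℕ → ℝ) : ℝ :=
  ∑ S ∈ U.powerset, p ^ S.card * (1 - p) ^ (U.card - S.card) * f S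

theorem E_congr {U : Finset ℕ} {p : ℝ} {f g : Finset ℕ → ℝ} (h : ∀ S ⊆ U, f S = g S) :
    E U p f = E U p g := by
  unfold E
  exact Finset.sum_congr rfl fun S hS => by rw [h S (Finset.mem_powerset.1 hS)]

theorem E_one (U : Finset ℕ) (p : ℝ) : E U p (fun _ => 1) = 1 := by
  unfold E
  simp only [mul_one]
  rw [Finset.sum_pow_mul_eq_add_pow]
  norm_num

theorem E_add (U : Finset ℕ) (p : ℝ) (f g : Finset ℕ → ℝ) :
    E U p (fun S => f S + g S) = E U p f + E U p g := by
  unfold E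
  rw [← Finset.sum_add_distrib]
  exact Finset.sum_congr rfl fun S _ => by ring

theorem E_mul_left (U : Finset ℕ) (p c : ℝ) (f : Finset ℕ → ℝ) :
    E U p (fun S => c * f S) = c * E U p f := by
  unfold E
  rw [Finset.mul_sum]
  exact Finset.sum_congr rfl fun S _ => by ring

theorem E_sum {ι : Type*} (U : Finset ℕ) (p : ℝ) (s : Finset ι) (f : ι → Finset ℕ → ℝ) :
    E U p (fun S => ∑ i ∈ s, f i S) = ∑ i ∈ s, E U p (f i) := by
  unfold E
  rw [Finset.sum_comm]
  exact Finset.sum_congr rfl fun S _ => by rw [Finset.mul_sum]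

theorem E_mono {U : Finset ℕ} {p : ℝ} (h0 : 0 ≤ p) (h1 : p ≤ 1) {f g : Finset ℕ → ℝ}
    (h : ∀ S ⊆ U, f S ≤ g S) : E U p f ≤ E U p g := by
  unfold E
  refine Finset.sum_le_sum fun S hS => ?_
  have h2 : 0 ≤ 1 - p := by linarith
  exact mul_le_mul_of_nonneg_left (h S (Finset.mem_powerset.1 hS)) (by positivity)

/-- The probability that the random set contains `t`. -/
theorem E_subset (U : Finset ℕ) (p : ℝ) (t : Finset ℕ) (ht : t ⊆ U) :
    E U p (fun S => if t ⊆ S then 1 else 0) = p ^ t.card := by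
  unfold E
  have h1 : ∑ S ∈ U.powerset, p ^ S.card * (1 - p) ^ (U.card - S.card) *
      (if t ⊆ S then (1 : ℝ) else 0)
      = ∑ S ∈ U.powerset.filter (fun S => t ⊆ S), p ^ S.card * (1 - p) ^ (U.card - S.card) := by
    rw [Finset.sum_filter]
    exact Finset.sum_congr rfl fun S _ => by split_ifs <;> simp
  rw [h1]
  have h2 : ∑ S ∈ U.powerset.filter (fun S => t ⊆ S), p ^ S.card * (1 - p) ^ (U.card - S.card)
      = ∑ S ∈ (U \ t).powerset, p ^ t.card * (p ^ S.card * (1 - p) ^ ((U \ t).card - S.card)) := by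
    refine Finset.sum_bij' (fun S _ => S \ t) (fun S _ => S ∪ t) ?_ ?_ ?_ ?_ ?_
    · intro S hS
      rw [Finset.mem_filter, Finset.mem_powerset] at hS
      rw [Finset.mem_powerset]
      exact Finset.sdiff_subset_sdiff hS.1 le_rfl
    · intro S hS
      rw [Finset.mem_powerset] at hS
      rw [Finset.mem_filter, Finset.mem_powerset]
      exact ⟨Finset.union_subset (hS.trans Finset.sdiff_subset) ht, Finset.subset_union_right⟩
    · intro S hS
      rw [Finset.mem_filter] at hS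
      exact Finset.sdiff_union_of_subset hS.2
    · intro S hS
      rw [Finset.mem_powerset] at hS
      ext x
      simp only [Finset.mem_sdiff, Finset.mem_union]
      constructor
      · rintro ⟨h | h, h'⟩
        · exact h
        · exact absurd h h'
      · intro h
        exact ⟨Or.inl h, (Finset.mem_sdiff.1 (hS h)).2⟩
    · intro S hS
      rw [Finset.mem_filter, Finset.mem_powerset] at hS
      have e1 : (S \ t).card + t.card = S.card := Finset.card_sdiff_add_card_eq_card hS.2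
      have e2 : (U \ t).card + t.card = U.card := Finset.card_sdiff_add_card_eq_card ht
      have e3 : S.card ≤ U.card := Finset.card_le_card hS.1
      have e4 : U.card - S.card = (U \ t).card - (S \ t).card := by omega
      rw [e4, ← mul_assoc, ← pow_add, show t.card + (S \ t).card = S.card by omega]
  rw [h2, ← Finset.mul_sum, Finset.sum_pow_mul_eq_add_pow]
  norm_num

/-- Monotonicity in the density. -/
theorem E_mono_p (U : Finset ℕ) : ∀ (f : Finset ℕ → ℝ), (∀ S T : Finset ℕ, S ⊆ T → f S ≤ f T) →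
    ∀ p q : ℝ, 0 ≤ p → p ≤ q → q ≤ 1 → E U p f ≤ E U q f := by
  classical
  induction U using Finset.induction_on with
  | empty =>
    intro f _ p q _ _ _
    unfold E
    simp
  | insert x U hx ih =>
    intro f hf p q hp hpq hq
    have key : ∀ r : ℝ, E (insert x U) r f
        = E U r (fun S => (1 - r) * f S + r * f (insert x S)) := by
      intro r
      unfold E
      rw [Finset.sum_powerset_insert hx, ← Finset.sum_add_distrib]
      refine Finset.sum_congr rfl fun S hS => ?_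
      rw [Finset.mem_powerset] at hS
      have hxS : x ∉ S := fun h => hx (hS h)
      have hc : S.card ≤ U.card := Finset.card_le_card hS
      rw [Finset.card_insert_of_notMem hx, Finset.card_insert_of_notMem hxS]
      have e1 : U.card + 1 - S.card = (U.card - S.card) + 1 := by omega
      have e2 : U.card + 1 - (S.card + 1) = U.card - S.card := by omega
      rw [e1, e2, pow_succ, pow_succ]
      ring
    rw [key p, key q]
    calc E U p (fun S => (1 - p) * f S + p * f (insert x S))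
        ≤ E U p (fun S => (1 - q) * f S + q * f (insert x S)) := by
          refine E_mono hp (hpq.trans hq) fun S _ => ?_
          have := hf S (insert x S) (Finset.subset_insert x S)
          nlinarith
      _ ≤ E U q (fun S => (1 - q) * f S + q * f (insert x S)) := by
          refine ih _ ?_ p q hp hpq hq
          intro S T hST
          have h1 := hf S T hST
          have h2 := hf (insert x S) (insert x T) (Finset.insert_subset_insert x hST)
          have h3 : 0 ≤ 1 - q := by linarith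
          have h4 : 0 ≤ q := hp.trans hpq
          exact add_le_add (mul_le_mul_of_nonneg_left h1 h3) (mul_le_mul_of_nonneg_left h2 h4)

/-- The second-moment inequality, localised to the event `t₀ ⊆ S`. -/
theorem second_moment {ι : Type*} (U : Finset ℕ) (p : ℝ) (h0 : 0 ≤ p) (h1 : p ≤ 1)
    (I : Finset ι) (t : ι → Finset ℕ) (t₀ : Finset ℕ) (ht₀ : t₀ ⊆ U) (ht : ∀ i ∈ I, t i ⊆ U)
    (hd : ∀ i ∈ I, Disjoint t₀ (t i)) (V : ℝ)
    (hV : ∑ i ∈ I, ∑ j ∈ I, p ^ (t i ∪ t j).card ≤ (∑ i ∈ I, p ^ (t i).card) ^ 2 + V) :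
    (∑ i ∈ I, p ^ (t i).card) ^ 2 *
      E U p (fun S => if t₀ ⊆ S ∧ ∀ i ∈ I, ¬ t i ⊆ S then 1 else 0) ≤ p ^ t₀.card * V := by
  classical
  set m : ℝ := ∑ i ∈ I, p ^ (t i).card with hm
  have hsub : ∀ (s : Finset ℕ) (S : Finset ℕ), t₀ ∪ s ⊆ S ↔ (t₀ ⊆ S ∧ s ⊆ S) := fun s S =>
    Finset.union_subset_iff
  have hcomp : E U p (fun S => (∑ i ∈ I, ∑ j ∈ I, (if t₀ ∪ (t i ∪ t j) ⊆ S then (1 : ℝ) else 0))
      + (-2 * m) * (∑ i ∈ I, (if t₀ ∪ t i ⊆ S then (1 : ℝ) else 0))
      + m ^ 2 * (if t₀ ⊆ S then (1 : ℝ) else 0))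
      = p ^ t₀.card * (∑ i ∈ I, ∑ j ∈ I, p ^ (t i ∪ t j).card - m ^ 2) := by
    rw [E_add, E_add, E_mul_left, E_mul_left, E_sum, E_sum, E_subset U p t₀ ht₀]
    have e1 : ∑ i ∈ I, E U p (fun S => ∑ j ∈ I, (if t₀ ∪ (t i ∪ t j) ⊆ S then (1 : ℝ) else 0))
        = p ^ t₀.card * ∑ i ∈ I, ∑ j ∈ I, p ^ (t i ∪ t j).card := by
      rw [Finset.mul_sum]
      refine Finset.sum_congr rfl fun i hi => ?_
      rw [E_sum, Finset.mul_sum]
      refine Finset.sum_congr rfl fun j hj => ?_
      rw [E_subset U p _ (Finset.union_subset ht₀ (Finset.union_subset (ht i hi) (ht j hj))),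
        Finset.card_union_of_disjoint, pow_add]
      rw [Finset.disjoint_union_right]
      exact ⟨hd i hi, hd j hj⟩
    have e2 : ∑ i ∈ I, E U p (fun S => (if t₀ ∪ t i ⊆ S then (1 : ℝ) else 0))
        = p ^ t₀.card * m := by
      rw [hm, Finset.mul_sum]
      refine Finset.sum_congr rfl fun i hi => ?_
      rw [E_subset U p _ (Finset.union_subset ht₀ (ht i hi)),
        Finset.card_union_of_disjoint (hd i hi), pow_add]
    rw [e1, e2]
    ring
  have hle : m ^ 2 * E U p (fun S => if t₀ ⊆ S ∧ ∀ i ∈ I, ¬ t i ⊆ S then 1 else 0)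
      ≤ E U p (fun S => (∑ i ∈ I, ∑ j ∈ I, (if t₀ ∪ (t i ∪ t j) ⊆ S then (1 : ℝ) else 0))
      + (-2 * m) * (∑ i ∈ I, (if t₀ ∪ t i ⊆ S then (1 : ℝ) else 0))
      + m ^ 2 * (if t₀ ⊆ S then (1 : ℝ) else 0)) := by
    rw [← E_mul_left]
    refine E_mono h0 h1 fun S _ => ?_
    by_cases hS : t₀ ⊆ S
    · have f1 : (∑ i ∈ I, ∑ j ∈ I, (if t₀ ∪ (t i ∪ t j) ⊆ S then (1 : ℝ) else 0))
          = (∑ i ∈ I, (if t i ⊆ S then (1 : ℝ) else 0)) ^ 2 := by
        rw [sq, Finset.sum_mul_sum]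
        refine Finset.sum_congr rfl fun i _ => Finset.sum_congr rfl fun j _ => ?_
        simp only [Finset.union_subset_iff, hS, true_and]
        by_cases a : t i ⊆ S <;> by_cases b : t j ⊆ S <;> simp [a, b]
      have f2 : (∑ i ∈ I, (if t₀ ∪ t i ⊆ S then (1 : ℝ) else 0))
          = ∑ i ∈ I, (if t i ⊆ S then (1 : ℝ) else 0) := by
        refine Finset.sum_congr rfl fun i _ => ?_
        simp only [Finset.union_subset_iff, hS, true_and]
      rw [f1, f2, if_pos hS]
      by_cases hn : ∀ i ∈ I, ¬ t i ⊆ S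
      · rw [if_pos ⟨hS, hn⟩]
        have f3 : ∑ i ∈ I, (if t i ⊆ S then (1 : ℝ) else 0) = 0 :=
          Finset.sum_eq_zero fun i hi => if_neg (hn i hi)
        rw [f3]
        nlinarith
      · rw [if_neg (fun h => hn h.2)]
        nlinarith [sq_nonneg ((∑ i ∈ I, (if t i ⊆ S then (1 : ℝ) else 0)) - m)]
    · rw [if_neg (fun h => hS h.1), if_neg hS]
      have f1 : (∑ i ∈ I, ∑ j ∈ I, (if t₀ ∪ (t i ∪ t j) ⊆ S then (1 : ℝ) else 0)) = 0 := by
        refine Finset.sum_eq_zero fun i _ => Finset.sum_eq_zero fun j _ => if_neg ?_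
        intro h
        exact hS (Finset.union_subset_iff.1 h).1
      have f2 : (∑ i ∈ I, (if t₀ ∪ t i ⊆ S then (1 : ℝ) else 0)) = 0 := by
        refine Finset.sum_eq_zero fun i _ => if_neg ?_
        intro h
        exact hS (Finset.union_subset_iff.1 h).1
      rw [f1, f2]
      simp
  rw [hcomp] at hle
  refine hle.trans (mul_le_mul_of_nonneg_left ?_ (pow_nonneg h0 _))
  linarith

/-- Pairwise disjoint sets of the same size. -/
theorem second_moment_disjoint {ι : Type*} (U : Finset ℕ) (p : ℝ) (h0 : 0 < p) (h1 : p ≤ 1)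
    (I : Finset ι) (hI : I.Nonempty) (t : ι → Finset ℕ) (t₀ : Finset ℕ) (ht₀ : t₀ ⊆ U)
    (ht : ∀ i ∈ I, t i ⊆ U) (hd : ∀ i ∈ I, Disjoint t₀ (t i)) (s : ℕ)
    (hs : ∀ i ∈ I, (t i).card = s) (hdis : ∀ i ∈ I, ∀ j ∈ I, i ≠ j → Disjoint (t i) (t j)) :
    E U p (fun S => if t₀ ⊆ S ∧ ∀ i ∈ I, ¬ t i ⊆ S then 1 else 0)
      ≤ p ^ t₀.card / (I.card * p ^ s) := by
  classical
  have hm : ∑ i ∈ I, p ^ (t i).card = I.card * p ^ s := by
    rw [Finset.sum_congr rfl (fun i hi => by rw [hs i hi]), Finset.sum_const, nsmul_eq_mul]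
  have hpos : (0 : ℝ) < I.card * p ^ s := by
    have : (0 : ℝ) < I.card := by exact_mod_cast Finset.card_pos.2 hI
    positivity
  have hV : ∑ i ∈ I, ∑ j ∈ I, p ^ (t i ∪ t j).card
      ≤ (∑ i ∈ I, p ^ (t i).card) ^ 2 + I.card * p ^ s := by
    rw [hm]
    have : ∀ i ∈ I, ∑ j ∈ I, p ^ (t i ∪ t j).card ≤ I.card * (p ^ s * p ^ s) + p ^ s := by
      intro i hi
      have : ∀ j ∈ I, p ^ (t i ∪ t j).card ≤ p ^ s * p ^ s + (if i = j then p ^ s else 0) := by
        intro j hj
        by_cases hij : i = j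
        · subst hij
          rw [Finset.union_self, hs i hi, if_pos rfl]
          have : 0 ≤ p ^ s * p ^ s := by positivity
          linarith
        · rw [if_neg hij, Finset.card_union_of_disjoint (hdis i hi j hj hij), hs i hi, hs j hj,
            pow_add, add_zero]
      refine (Finset.sum_le_sum this).trans ?_
      rw [Finset.sum_add_distrib, Finset.sum_const, nsmul_eq_mul, Finset.sum_ite_eq, if_pos hi]
    refine (Finset.sum_le_sum this).trans ?_
    rw [Finset.sum_const, nsmul_eq_mul]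
    apply le_of_eq
    ring
  have := second_moment U p h0.le h1 I t t₀ ht₀ ht hd _ hV
  rw [hm] at this
  rw [le_div_iff₀ hpos]
  have h2 : (I.card * p ^ s) * (E U p (fun S => if t₀ ⊆ S ∧ ∀ i ∈ I, ¬ t i ⊆ S then 1 else 0)
      * (I.card * p ^ s)) ≤ (I.card * p ^ s) * p ^ t₀.card := by
    calc _ = (I.card * p ^ s) ^ 2 *
        E U p (fun S => if t₀ ⊆ S ∧ ∀ i ∈ I, ¬ t i ⊆ S then 1 else 0) := by ring
      _ ≤ _ := by rw [mul_comm (I.card * p ^ s) (p ^ t₀.card)]; exact this
  exact le_of_mul_le_mul_left h2 hpos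

/-- `A` is product-Schur. -/
def ProductSchur (A : Set ℕ) : Prop :=
  ∀ χ : ℕ → Bool, ∃ a ∈ A, ∃ b ∈ A, a * b ∈ A ∧ χ a = χ b ∧ χ b = χ (a * b)

theorem ProductSchur.mono {A B : Set ℕ} (h : A ⊆ B) (hA : ProductSchur A) : ProductSchur B := by
  intro χ
  obtain ⟨a, ha, b, hb, hab, h1, h2⟩ := hA χ
  exact ⟨a, h ha, b, h hb, h hab, h1, h2⟩

theorem bool_c : ∀ a b ab c ac abc aabc aabbc : Bool,
    ¬ (a = b ∧ b = ab) → ¬ (a = c ∧ c = ac) → ¬ (b = ac ∧ ac = abc) → ¬ (a = abc ∧ abc = aabc) →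
    ¬ (b = aabc ∧ aabc = aabbc) → ¬ (ab = c ∧ c = abc) → ¬ (ab = ac ∧ ac = aabc) →
    ¬ (ab = abc ∧ abc = aabbc) → a ≠ b := by
  intro a b ab c ac abc aabc aabbc
  cases a <;> cases b <;> cases ab <;> cases c <;> cases ac <;> cases abc <;> cases aabc <;>
    cases aabbc <;> simp

theorem bool_d : ∀ a b ab d ad bd abd aad aabd : Bool,
    ¬ (a = b ∧ b = ab) → ¬ (a = d ∧ d = ad) → ¬ (b = d ∧ d = bd) → ¬ (ab = d ∧ d = abd) →
    ¬ (a = bd ∧ bd = abd) → ¬ (b = ad ∧ ad = abd) → ¬ (a = ad ∧ ad = aad) →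
    ¬ (b = aad ∧ aad = aabd) → ¬ (a = abd ∧ abd = aabd) → ¬ (ab = ad ∧ ad = aabd) → a = b := by
  intro a b ab d ad bd abd aad aabd
  cases a <;> cases b <;> cases ab <;> cases d <;> cases ad <;> cases bd <;> cases abd <;>
    cases aad <;> cases aabd <;> simp

/-- The fourteen-element configuration. -/
theorem productSchur_of_config {S : Set ℕ} {a b c d : ℕ}
    (ha : a ∈ S) (hb : b ∈ S) (hab : a * b ∈ S)
    (hc : c ∈ S) (hac : c * a ∈ S) (habc : c * (a * b) ∈ S) (haabc : c * (a ^ 2 * b) ∈ S)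
    (haabbc : c * (a ^ 2 * b ^ 2) ∈ S)
    (hd : d ∈ S) (had : d * a ∈ S) (hbd : d * b ∈ S) (habd : d * (a * b) ∈ S)
    (haad : d * a ^ 2 ∈ S) (haabd : d * (a ^ 2 * b) ∈ S) : ProductSchur S := by
  intro χ
  by_contra hne
  have key : ∀ x ∈ S, ∀ y ∈ S, x * y ∈ S → ¬ (χ x = χ y ∧ χ y = χ (x * y)) := by
    intro x hx y hy hxy h
    exact hne ⟨x, hx, y, hy, hxy, h.1, h.2⟩
  have key' : ∀ x ∈ S, ∀ y ∈ S, ∀ z ∈ S, x * y = z → ¬ (χ x = χ y ∧ χ y = χ z) := by
    intro x hx y hy z hz h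
    subst h
    exact key x hx y hy hz
  have h1 := bool_c (χ a) (χ b) (χ (a * b)) (χ c) (χ (c * a)) (χ (c * (a * b)))
    (χ (c * (a ^ 2 * b))) (χ (c * (a ^ 2 * b ^ 2)))
    (key' a ha b hb _ hab rfl) (key' a ha c hc _ hac (by ring))
    (key' b hb _ hac _ habc (by ring)) (key' a ha _ habc _ haabc (by ring))
    (key' b hb _ haabc _ haabbc (by ring)) (key' _ hab c hc _ habc (by ring))
    (key' _ hab _ hac _ haabc (by ring)) (key' _ hab _ habc _ haabbc (by ring))
  have h2 := bool_d (χ a) (χ b) (χ (a * b)) (χ d) (χ (d * a)) (χ (d * b)) (χ (d * (a * b)))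
    (χ (d * a ^ 2)) (χ (d * (a ^ 2 * b)))
    (key' a ha b hb _ hab rfl) (key' a ha d hd _ had (by ring))
    (key' b hb d hd _ hbd (by ring)) (key' _ hab d hd _ habd (by ring))
    (key' a ha _ hbd _ habd (by ring)) (key' b hb _ had _ habd (by ring))
    (key' a ha _ had _ haad (by ring)) (key' b hb _ haad _ haabd (by ring))
    (key' a ha _ habd _ haabd (by ring)) (key' _ hab _ had _ haabd (by ring))
  exact h1 h2

end Pool.Agent.H78.PSchur
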