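import Mathlib
import Pool.Agent.H78.PSchurBasic

/-!
The non-asymptotic lower bound for the probability that the random set is product-Schur.
-/

open Finset

noncomputable section

namespace Pool.Agent.H78.PSchur

theorem card_pair' (a b : ℕ) : ({a, b} : Finset ℕ).card = if a = b then 1 else 2 := by
  split_ifs with h
  · subst h
    simp
  · exact Finset.card_pair h

/-- The three-element set `{a, b, ab}`. -/
def tri (x : ℕ × ℕ) : Finset ℕ := {x.1, x.2, x.1 * x.2}

theorem tri_card {x : ℕ × ℕ} {u D : ℕ} (h1 : x.1 ≤ u) (h2 : u < x.2) (h3 : x.2 ≤ D)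
    (h4 : D < x.1 * x.2) : (tri x).card = 3 := by
  unfold tri
  rw [Finset.card_insert_of_notMem, Finset.card_pair]
  · omega
  · simp only [Finset.mem_insert, Finset.mem_singleton, not_or]
    constructor <;> omega

theorem tri_union_card {x y : ℕ × ℕ} {u D : ℕ} (h1 : x.1 ≤ u) (h2 : u < x.2) (h3 : x.2 ≤ D)
    (h4 : D < x.1 * x.2) (k1 : y.1 ≤ u) (k2 : u < y.2) (k3 : y.2 ≤ D)
    (k4 : D < y.1 * y.2) : (tri x ∪ tri y).card =
      (if x.1 = y.1 then 1 else 2) + (if x.2 = y.2 then 1 else 2)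
        + (if x.1 * x.2 = y.1 * y.2 then 1 else 2) := by
  have e : tri x ∪ tri y = ({x.1, y.1} ∪ {x.2, y.2}) ∪ {x.1 * x.2, y.1 * y.2} := by
    unfold tri
    ext z
    simp only [Finset.mem_union, Finset.mem_insert, Finset.mem_singleton]
    tauto
  rw [e, Finset.card_union_of_disjoint, Finset.card_union_of_disjoint, card_pair', card_pair',
    card_pair']
  · rw [Finset.disjoint_left]
    intro z hz hz'
    simp only [Finset.mem_insert, Finset.mem_singleton] at hz hz'
    omega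
  · rw [Finset.disjoint_left]
    intro z hz hz'
    simp only [Finset.mem_union, Finset.mem_insert, Finset.mem_singleton] at hz hz'
    rcases hz with (h | h) | (h | h) <;> rcases hz' with h' | h' <;> omega

theorem pairs_bound (U : Finset ℕ) (p : ℝ) (h0 : 0 < p) (h1 : p ≤ 1) (T : Finset (ℕ × ℕ))
    (hT : T.Nonempty) (u D : ℕ)
    (h : ∀ x ∈ T, 1 ≤ x.1 ∧ x.1 ≤ u ∧ u < x.2 ∧ x.2 ≤ D ∧ D < x.1 * x.2 ∧ tri x ⊆ U) :
    E U p (fun S => if ∅ ⊆ S ∧ ∀ x ∈ T, ¬ tri x ⊆ S then 1 else 0)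
      ≤ (D + 2 * u) / (p * T.card) + 1 / (p ^ 3 * T.card) := by
  classical
  have hNpos : (0 : ℝ) < T.card := by exact_mod_cast Finset.card_pos.2 hT
  have hcard : ∀ x ∈ T, (tri x).card = 3 := fun x hx => by
    obtain ⟨a1, a2, a3, a4, a5, a6⟩ := h x hx
    exact tri_card a2 a3 a4 a5
  have hm : ∑ x ∈ T, p ^ (tri x).card = T.card * p ^ 3 := by
    rw [Finset.sum_congr rfl (fun i hi => by rw [hcard i hi]), Finset.sum_const, nsmul_eq_mul]
  set V : ℝ := T.card * (p ^ 5 * (D + 2 * u) + p ^ 3) with hVdef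
  have hV : ∑ x ∈ T, ∑ y ∈ T, p ^ (tri x ∪ tri y).card
      ≤ (∑ x ∈ T, p ^ (tri x).card) ^ 2 + V := by
    rw [hm]
    have hx : ∀ x ∈ T, ∑ y ∈ T, p ^ (tri x ∪ tri y).card
        ≤ T.card * p ^ 6 + (p ^ 5 * (D + 2 * u) + p ^ 3) := by
      intro x hx
      obtain ⟨a1, a2, a3, a4, a5, a6⟩ := h x hx
      have hy : ∀ y ∈ T, p ^ (tri x ∪ tri y).card
          ≤ p ^ 6 + (p ^ 5 * (if x.1 = y.1 then 1 else 0) + p ^ 5 * (if x.2 = y.2 then 1 else 0)
            + p ^ 5 * (if x.1 * x.2 = y.1 * y.2 then 1 else 0)) + p ^ 3 * (if x = y then 1 else 0) := by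
        intro y hy
        obtain ⟨b1, b2, b3, b4, b5, b6⟩ := h y hy
        rw [tri_union_card a2 a3 a4 a5 b2 b3 b4 b5]
        have q6 : 0 < p ^ 6 := by positivity
        have q5 : 0 < p ^ 5 := by positivity
        have q3 : 0 < p ^ 3 := by positivity
        by_cases c1 : x.1 = y.1
        · by_cases c2 : x.2 = y.2
          · have c3 : x = y := Prod.ext c1 c2
            subst c3
            simp only [if_true]
            norm_num
            linarith
          · have c3 : ¬ x.1 * x.2 = y.1 * y.2 := by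
              intro hh
              rw [c1] at hh
              exact c2 (Nat.eq_of_mul_eq_mul_left (by omega) hh)
            have c4 : x ≠ y := fun hh => c2 (by rw [hh])
            rw [if_pos c1, if_neg c2, if_neg c3, if_neg c4, if_pos c1, if_neg c2, if_neg c3]
            norm_num
            linarith
        · by_cases c2 : x.2 = y.2
          · have c3 : ¬ x.1 * x.2 = y.1 * y.2 := by
              intro hh
              rw [c2] at hh
              exact c1 (Nat.eq_of_mul_eq_mul_right (by omega) hh)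
            have c4 : x ≠ y := fun hh => c1 (by rw [hh])
            rw [if_neg c1, if_pos c2, if_neg c3, if_neg c4, if_neg c1, if_pos c2, if_neg c3]
            norm_num
            linarith
          · have c4 : x ≠ y := fun hh => c1 (by rw [hh])
            by_cases c3 : x.1 * x.2 = y.1 * y.2
            · rw [if_neg c1, if_neg c2, if_pos c3, if_neg c4, if_neg c1, if_neg c2, if_pos c3]
              norm_num
              linarith
            · rw [if_neg c1, if_neg c2, if_neg c3, if_neg c4, if_neg c1, if_neg c2, if_neg c3]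
              norm_num
      refine (Finset.sum_le_sum hy).trans ?_
      rw [Finset.sum_add_distrib, Finset.sum_add_distrib, Finset.sum_add_distrib,
        Finset.sum_add_distrib, Finset.sum_const, nsmul_eq_mul, ← Finset.mul_sum,
        ← Finset.mul_sum, ← Finset.mul_sum, ← Finset.mul_sum, Finset.sum_ite_eq, if_pos hx]
      have d1 : ∑ y ∈ T, (if x.1 = y.1 then (1 : ℝ) else 0) ≤ D := by
        rw [Finset.sum_boole]
        have : (T.filter (fun y => x.1 = y.1)).card ≤ (Finset.Icc 1 D).card := by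
          refine Finset.card_le_card_of_injOn (fun y => y.2) ?_ ?_
          · intro y hy
            rw [Finset.mem_coe, Finset.mem_filter] at hy
            obtain ⟨b1, b2, b3, b4, b5, b6⟩ := h y hy.1
            rw [Finset.mem_coe, Finset.mem_Icc]
            exact ⟨by show 1 ≤ y.2; omega, b4⟩
          · intro y hy z hz hyz
            rw [Finset.mem_coe, Finset.mem_filter] at hy hz
            exact Prod.ext (hy.2.symm.trans hz.2) hyz
        rw [Nat.card_Icc] at this
        exact_mod_cast this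
      have d2 : ∑ y ∈ T, (if x.2 = y.2 then (1 : ℝ) else 0) ≤ u := by
        rw [Finset.sum_boole]
        have : (T.filter (fun y => x.2 = y.2)).card ≤ (Finset.Icc 1 u).card := by
          refine Finset.card_le_card_of_injOn (fun y => y.1) ?_ ?_
          · intro y hy
            rw [Finset.mem_coe, Finset.mem_filter] at hy
            obtain ⟨b1, b2, b3, b4, b5, b6⟩ := h y hy.1
            rw [Finset.mem_coe, Finset.mem_Icc]
            constructor <;> omega
          · intro y hy z hz hyz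
            rw [Finset.mem_coe, Finset.mem_filter] at hy hz
            exact Prod.ext hyz (hy.2.symm.trans hz.2)
        rw [Nat.card_Icc] at this
        exact_mod_cast this
      have d3 : ∑ y ∈ T, (if x.1 * x.2 = y.1 * y.2 then (1 : ℝ) else 0) ≤ u := by
        rw [Finset.sum_boole]
        have : (T.filter (fun y => x.1 * x.2 = y.1 * y.2)).card ≤ (Finset.Icc 1 u).card := by
          refine Finset.card_le_card_of_injOn (fun y => y.1) ?_ ?_
          · intro y hy
            rw [Finset.mem_coe, Finset.mem_filter] at hy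
            obtain ⟨b1, b2, b3, b4, b5, b6⟩ := h y hy.1
            rw [Finset.mem_coe, Finset.mem_Icc]
            constructor <;> omega
          · intro y hy z hz hyz
            rw [Finset.mem_coe, Finset.mem_filter] at hy hz
            obtain ⟨b1, b2, b3, b4, b5, b6⟩ := h y hy.1
            have hyz' : y.1 = z.1 := hyz
            have e1 : y.1 * y.2 = z.1 * z.2 := hy.2.symm.trans hz.2
            rw [← hyz'] at e1
            exact Prod.ext hyz' (Nat.eq_of_mul_eq_mul_left (by omega) e1)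
        rw [Nat.card_Icc] at this
        exact_mod_cast this
      have q5 : 0 ≤ p ^ 5 := by positivity
      nlinarith [mul_le_mul_of_nonneg_left d1 q5, mul_le_mul_of_nonneg_left d2 q5,
        mul_le_mul_of_nonneg_left d3 q5]
    refine (Finset.sum_le_sum hx).trans ?_
    rw [Finset.sum_const, nsmul_eq_mul, hVdef]
    apply le_of_eq
    ring
  have := second_moment U p h0.le h1 T tri ∅ (Finset.empty_subset _)
    (fun x hx => (h x hx).2.2.2.2.2) (fun x _ => Finset.disjoint_empty_left _) V hV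
  rw [hm, Finset.card_empty, pow_zero, one_mul] at this
  have hpos : (0 : ℝ) < (T.card * p ^ 3) ^ 2 := by positivity
  have e2 : ((D : ℝ) + 2 * u) / (p * T.card) + 1 / (p ^ 3 * T.card)
      = V / (T.card * p ^ 3) ^ 2 := by
    rw [hVdef]
    field_simp
  rw [e2, le_div_iff₀ hpos, mul_comm]
  exact this

/-- Multiples `c M` for `c` in `(X, 2X]` are pairwise disjoint when the elements of `M` are
separated by factors of at least two. -/
theorem dilate_disjoint (M : Finset ℕ) (hM : ∀ m ∈ M, ∀ m' ∈ M, m < m' → 2 * m ≤ m')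
    (hM0 : ∀ m ∈ M, 1 ≤ m) {X c c' : ℕ} (hc : c ∈ Finset.Ioc X (2 * X))
    (hc' : c' ∈ Finset.Ioc X (2 * X)) (hne : c ≠ c') :
    Disjoint (M.image (fun m => c * m)) (M.image (fun m => c' * m)) := by
  rw [Finset.disjoint_left]
  intro z hz hz'
  rw [Finset.mem_image] at hz hz'
  obtain ⟨m, hm, rfl⟩ := hz
  obtain ⟨m', hm', he⟩ := hz'
  rw [Finset.mem_Ioc] at hc hc'
  have p1 := hM0 m hm
  have p2 := hM0 m' hm'
  rcases lt_trichotomy m m' with hlt | heq | hgt
  · have := hM m hm m' hm' hlt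
    have h1 : c' * (2 * m) ≤ c * m := by
      rw [← he]
      exact Nat.mul_le_mul_left _ this
    have h2 : (c' * 2) * m ≤ c * m := by
      calc (c' * 2) * m = c' * (2 * m) := by ring
        _ ≤ _ := h1
    have h3 := Nat.le_of_mul_le_mul_right h2 (by omega)
    omega
  · subst heq
    exact hne (Nat.eq_of_mul_eq_mul_right (by omega) he.symm)
  · have := hM m' hm' m hm hgt
    have h1 : c * (2 * m') ≤ c' * m' := by
      rw [he]
      exact Nat.mul_le_mul_left _ this
    have h2 : (c * 2) * m' ≤ c' * m' := by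
      calc (c * 2) * m' = c * (2 * m') := by ring
        _ ≤ _ := h1
    have h3 := Nat.le_of_mul_le_mul_right h2 (by omega)
    omega

theorem dilate_bound (n : ℕ) (p : ℝ) (h0 : 0 < p) (h1 : p ≤ 1) (M : Finset ℕ)
    (hM : ∀ m ∈ M, ∀ m' ∈ M, m < m' → 2 * m ≤ m')
    (hM0 : ∀ m ∈ M, 1 ≤ m) (s : ℕ) (hs : M.card = s) (X mx : ℕ) (hX : 0 < X)
    (hmx : ∀ m ∈ M, m ≤ mx) (hn : 2 * X * mx ≤ n) (t₀ : Finset ℕ) (ht₀ : t₀ ⊆ Finset.Icc 1 n)
    (ht₀X : ∀ z ∈ t₀, z ≤ X) (ht₀c : t₀.card = 3) :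
    E (Finset.Icc 1 n) p (fun S => if t₀ ⊆ S ∧ ∀ c ∈ Finset.Ioc X (2 * X),
      ¬ M.image (fun m => c * m) ⊆ S then 1 else 0) ≤ p ^ 3 / (X * p ^ s) := by
  have hcardI : (Finset.Ioc X (2 * X)).card = X := by
    rw [Nat.card_Ioc]
    omega
  have := second_moment_disjoint (Finset.Icc 1 n) p h0 h1 (Finset.Ioc X (2 * X))
    (Finset.card_pos.1 (by rw [hcardI]; exact hX)) (fun c => M.image (fun m => c * m)) t₀ ht₀
    (by
      intro c hc z hz
      rw [Finset.mem_image] at hz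
      obtain ⟨m, hm, rfl⟩ := hz
      rw [Finset.mem_Ioc] at hc
      rw [Finset.mem_Icc]
      have p1 := hM0 m hm
      have p2 := hmx m hm
      constructor
      · exact Nat.mul_pos (by omega) p1
      · exact (Nat.mul_le_mul hc.2 p2).trans hn)
    (by
      intro c hc
      rw [Finset.disjoint_left]
      intro z hz hz'
      rw [Finset.mem_image] at hz'
      obtain ⟨m, hm, rfl⟩ := hz'
      rw [Finset.mem_Ioc] at hc
      have p1 := hM0 m hm
      have p2 := ht₀X _ hz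
      have : c * 1 ≤ c * m := Nat.mul_le_mul_left _ p1
      omega)
    s
    (by
      intro c hc
      rw [Finset.mem_Ioc] at hc
      rw [Finset.card_image_of_injective, hs]
      intro a b hab
      exact Nat.eq_of_mul_eq_mul_left (by omega) hab)
    (by
      intro c hc c' hc' hne
      exact dilate_disjoint M hM hM0 hc hc' hne)
  rw [hcardI, ht₀c] at this
  exact this

def MC (x : ℕ × ℕ) : Finset ℕ :=
  {1, x.1, x.1 * x.2, x.1 ^ 2 * x.2, x.1 ^ 2 * x.2 ^ 2}

def MD (x : ℕ × ℕ) : Finset ℕ :=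
  {1, x.1, x.2, x.1 ^ 2, x.1 * x.2, x.1 ^ 2 * x.2}

theorem sep5 {m1 m2 m3 m4 m5 : ℕ} (h0 : 1 ≤ m1) (h1 : 2 * m1 ≤ m2) (h2 : 2 * m2 ≤ m3)
    (h3 : 2 * m3 ≤ m4) (h4 : 2 * m4 ≤ m5) :
    (∀ m ∈ ({m1, m2, m3, m4, m5} : Finset ℕ), ∀ m' ∈ ({m1, m2, m3, m4, m5} : Finset ℕ),
      m < m' → 2 * m ≤ m') ∧ (∀ m ∈ ({m1, m2, m3, m4, m5} : Finset ℕ), 1 ≤ m) ∧
    ({m1, m2, m3, m4, m5} : Finset ℕ).card = 5 ∧
    (∀ m ∈ ({m1, m2, m3, m4, m5} : Finset ℕ), m ≤ m5) := by
  refine ⟨?_, ?_, ?_, ?_⟩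
  · intro m hm m' hm' hlt
    simp only [Finset.mem_insert, Finset.mem_singleton] at hm hm'
    omega
  · intro m hm
    simp only [Finset.mem_insert, Finset.mem_singleton] at hm
    omega
  · rw [Finset.card_insert_of_notMem, Finset.card_insert_of_notMem,
      Finset.card_insert_of_notMem, Finset.card_insert_of_notMem, Finset.card_singleton]
    all_goals
      simp only [Finset.mem_insert, Finset.mem_singleton, not_or]
      omega
  · intro m hm
    simp only [Finset.mem_insert, Finset.mem_singleton] at hm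
    omega

theorem sep6 {m1 m2 m3 m4 m5 m6 : ℕ} (h0 : 1 ≤ m1) (h1 : 2 * m1 ≤ m2) (h2 : 2 * m2 ≤ m3)
    (h3 : 2 * m3 ≤ m4) (h4 : 2 * m4 ≤ m5) (h5 : 2 * m5 ≤ m6) :
    (∀ m ∈ ({m1, m2, m3, m4, m5, m6} : Finset ℕ),
      ∀ m' ∈ ({m1, m2, m3, m4, m5, m6} : Finset ℕ),
      m < m' → 2 * m ≤ m') ∧ (∀ m ∈ ({m1, m2, m3, m4, m5, m6} : Finset ℕ), 1 ≤ m) ∧
    ({m1, m2, m3, m4, m5, m6} : Finset ℕ).card = 6 ∧
    (∀ m ∈ ({m1, m2, m3, m4, m5, m6} : Finset ℕ), m ≤ m6) := by
  refine ⟨?_, ?_, ?_, ?_⟩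
  · intro m hm m' hm' hlt
    simp only [Finset.mem_insert, Finset.mem_singleton] at hm hm'
    omega
  · intro m hm
    simp only [Finset.mem_insert, Finset.mem_singleton] at hm
    omega
  · rw [Finset.card_insert_of_notMem, Finset.card_insert_of_notMem,
      Finset.card_insert_of_notMem, Finset.card_insert_of_notMem,
      Finset.card_insert_of_notMem, Finset.card_singleton]
    all_goals
      simp only [Finset.mem_insert, Finset.mem_singleton, not_or]
      omega
  · intro m hm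
    simp only [Finset.mem_insert, Finset.mem_singleton] at hm
    omega

theorem MC_prop {x : ℕ × ℕ} (ha : 2 ≤ x.1) (hb : 2 ≤ x.2) :
    (∀ m ∈ MC x, ∀ m' ∈ MC x, m < m' → 2 * m ≤ m') ∧ (∀ m ∈ MC x, 1 ≤ m) ∧
    (MC x).card = 5 ∧ (∀ m ∈ MC x, m ≤ x.1 ^ 2 * x.2 ^ 2) := by
  unfold MC
  refine sep5 le_rfl (by omega) ?_ ?_ ?_
  · calc 2 * x.1 = x.1 * 2 := by ring
      _ ≤ x.1 * x.2 := Nat.mul_le_mul_left _ hb
  · calc 2 * (x.1 * x.2) ≤ x.1 * (x.1 * x.2) := Nat.mul_le_mul_right _ ha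
      _ = x.1 ^ 2 * x.2 := by ring
  · calc 2 * (x.1 ^ 2 * x.2) ≤ x.2 * (x.1 ^ 2 * x.2) := Nat.mul_le_mul_right _ hb
      _ = x.1 ^ 2 * x.2 ^ 2 := by ring

theorem MD_prop {x : ℕ × ℕ} (ha : 2 ≤ x.1) (hab : 2 * x.1 ≤ x.2) (hba : 2 * x.2 ≤ x.1 ^ 2) :
    (∀ m ∈ MD x, ∀ m' ∈ MD x, m < m' → 2 * m ≤ m') ∧ (∀ m ∈ MD x, 1 ≤ m) ∧
    (MD x).card = 6 ∧ (∀ m ∈ MD x, m ≤ x.1 ^ 2 * x.2) := by
  unfold MD
  refine sep6 le_rfl (by omega) hab hba ?_ ?_
  · calc 2 * x.1 ^ 2 = x.1 * (2 * x.1) := by ring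
      _ ≤ x.1 * x.2 := Nat.mul_le_mul_left _ hab
  · calc 2 * (x.1 * x.2) ≤ x.1 * (x.1 * x.2) := Nat.mul_le_mul_right _ ha
      _ = x.1 ^ 2 * x.2 := by ring

open Classical in
/-- The non-asymptotic bound. -/
theorem fail_bound (n : ℕ) (p : ℝ) (h0 : 0 < p) (h1 : p ≤ 1) (T : Finset (ℕ × ℕ))
    (hT : T.Nonempty) (u D W X Y : ℕ)
    (h : ∀ x ∈ T, 2 ≤ x.1 ∧ x.1 ≤ u ∧ u < x.2 ∧ x.2 ≤ D ∧ D < x.1 * x.2 ∧ x.1 * x.2 ≤ W ∧
      2 * x.1 ≤ x.2 ∧ 2 * x.2 ≤ x.1 ^ 2)
    (hX : 0 < X) (hY : 0 < Y) (hWX : W ≤ X) (hWY : W ≤ Y) (hXn : 2 * X * W ^ 2 ≤ n)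
    (hYn : 2 * Y * (u * W) ≤ n) :
    E (Finset.Icc 1 n) p (fun S => if ProductSchur (S : Set ℕ) then 0 else 1)
      ≤ (D + 2 * u) / (p * T.card) + 1 / (p ^ 3 * T.card)
        + T.card * (p ^ 3 / (X * p ^ 5) + p ^ 3 / (Y * p ^ 6)) := by
  have hWn : W ≤ n := by
    rcases Nat.eq_zero_or_pos W with hW | hW
    · omega
    · have : 1 * W ≤ 2 * X * W ^ 2 := by
        calc 1 * W = 1 * (W * 1) := by ring
          _ ≤ (2 * X) * (W * W) := Nat.mul_le_mul (by omega) (Nat.mul_le_mul_left _ hW)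
          _ = 2 * X * W ^ 2 := by ring
      omega
  have htri : ∀ x ∈ T, tri x ⊆ Finset.Icc 1 n := by
    intro x hx z hz
    obtain ⟨a1, a2, a3, a4, a5, a6, a7, a8⟩ := h x hx
    unfold tri at hz
    simp only [Finset.mem_insert, Finset.mem_singleton] at hz
    rw [Finset.mem_Icc]
    omega
  have hle : E (Finset.Icc 1 n) p (fun S => if ProductSchur (S : Set ℕ) then 0 else 1)
      ≤ E (Finset.Icc 1 n) p (fun S =>
        (if ∅ ⊆ S ∧ ∀ x ∈ T, ¬ tri x ⊆ S then (1 : ℝ) else 0)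
        + ∑ x ∈ T, ((if tri x ⊆ S ∧ ∀ c ∈ Finset.Ioc X (2 * X),
            ¬ (MC x).image (fun m => c * m) ⊆ S then (1 : ℝ) else 0)
          + (if tri x ⊆ S ∧ ∀ c ∈ Finset.Ioc Y (2 * Y),
            ¬ (MD x).image (fun m => c * m) ⊆ S then (1 : ℝ) else 0))) := by
    refine E_mono h0.le h1 fun S _ => ?_
    have nn : ∀ x ∈ T, (0 : ℝ) ≤ ((if tri x ⊆ S ∧ ∀ c ∈ Finset.Ioc X (2 * X),
            ¬ (MC x).image (fun m => c * m) ⊆ S then (1 : ℝ) else 0)
          + (if tri x ⊆ S ∧ ∀ c ∈ Finset.Ioc Y (2 * Y),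
            ¬ (MD x).image (fun m => c * m) ⊆ S then (1 : ℝ) else 0)) := by
      intro x _
      refine add_nonneg ?_ ?_ <;> split_ifs <;> norm_num
    by_cases hPS : ProductSchur (S : Set ℕ)
    · rw [if_pos hPS]
      refine add_nonneg ?_ (Finset.sum_nonneg nn)
      split_ifs <;> norm_num
    · rw [if_neg hPS]
      by_cases hA : ∀ x ∈ T, ¬ tri x ⊆ S
      · rw [if_pos ⟨Finset.empty_subset _, hA⟩]
        linarith [Finset.sum_nonneg nn]
      · push Not at hA
        obtain ⟨x, hx, hxS⟩ := hA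
        rw [if_neg (fun hh => hh.2 x hx hxS), zero_add]
        refine le_trans ?_ (Finset.single_le_sum nn hx)
        by_cases hC : ∀ c ∈ Finset.Ioc X (2 * X), ¬ (MC x).image (fun m => c * m) ⊆ S
        · rw [if_pos ⟨hxS, hC⟩]
          have : (0 : ℝ) ≤ (if tri x ⊆ S ∧ ∀ c ∈ Finset.Ioc Y (2 * Y),
            ¬ (MD x).image (fun m => c * m) ⊆ S then (1 : ℝ) else 0) := by
            split_ifs <;> norm_num
          linarith
        · by_cases hDD : ∀ c ∈ Finset.Ioc Y (2 * Y), ¬ (MD x).image (fun m => c * m) ⊆ S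
          · rw [if_pos (show tri x ⊆ S ∧ ∀ c ∈ Finset.Ioc Y (2 * Y),
              ¬ (MD x).image (fun m => c * m) ⊆ S from ⟨hxS, hDD⟩)]
            have : (0 : ℝ) ≤ (if tri x ⊆ S ∧ ∀ c ∈ Finset.Ioc X (2 * X),
              ¬ (MC x).image (fun m => c * m) ⊆ S then (1 : ℝ) else 0) := by
              split_ifs <;> norm_num
            linarith
          · exfalso
            push Not at hC hDD
            obtain ⟨c, _, hc⟩ := hC
            obtain ⟨d, _, hd⟩ := hDD
            apply hPS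
            have c' : ∀ m ∈ MC x, c * m ∈ (S : Set ℕ) := fun m hm =>
              Finset.mem_coe.2 (hc (Finset.mem_image_of_mem _ hm))
            have d' : ∀ m ∈ MD x, d * m ∈ (S : Set ℕ) := fun m hm =>
              Finset.mem_coe.2 (hd (Finset.mem_image_of_mem _ hm))
            have t' : ∀ m ∈ tri x, m ∈ (S : Set ℕ) := fun m hm => Finset.mem_coe.2 (hxS hm)
            refine productSchur_of_config (a := x.1) (b := x.2) (c := c) (d := d)
              (t' _ (by simp [tri])) (t' _ (by simp [tri])) (t' _ (by simp [tri]))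
              ?_ (c' _ (by simp [MC])) (c' _ (by simp [MC])) (c' _ (by simp [MC]))
              (c' _ (by simp [MC])) ?_ (d' _ (by simp [MD])) (d' _ (by simp [MD]))
              (d' _ (by simp [MD])) (d' _ (by simp [MD])) (d' _ (by simp [MD]))
            · have := c' 1 (by simp [MC])
              rwa [mul_one] at this
            · have := d' 1 (by simp [MD])
              rwa [mul_one] at this
  refine hle.trans ?_
  rw [E_add, E_sum]
  have hpart1 := pairs_bound (Finset.Icc 1 n) p h0 h1 T hT u D (by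
    intro x hx
    obtain ⟨a1, a2, a3, a4, a5, a6, a7, a8⟩ := h x hx
    exact ⟨by omega, a2, a3, a4, a5, htri x hx⟩)
  have hpart2 : ∑ x ∈ T, E (Finset.Icc 1 n) p (fun S =>
        ((if tri x ⊆ S ∧ ∀ c ∈ Finset.Ioc X (2 * X),
            ¬ (MC x).image (fun m => c * m) ⊆ S then (1 : ℝ) else 0)
          + (if tri x ⊆ S ∧ ∀ c ∈ Finset.Ioc Y (2 * Y),
            ¬ (MD x).image (fun m => c * m) ⊆ S then (1 : ℝ) else 0)))
      ≤ T.card * (p ^ 3 / (X * p ^ 5) + p ^ 3 / (Y * p ^ 6)) := by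
    rw [← nsmul_eq_mul, ← Finset.sum_const]
    refine Finset.sum_le_sum fun x hx => ?_
    obtain ⟨a1, a2, a3, a4, a5, a6, a7, a8⟩ := h x hx
    have hc3 : (tri x).card = 3 := tri_card a2 a3 a4 a5
    have hx2 : 2 ≤ x.2 := by omega
    have hx2W : x.2 ≤ W := by omega
    obtain ⟨b1, b2, b3, b4⟩ := MC_prop a1 hx2
    obtain ⟨c1, c2, c3, c4⟩ := MD_prop a1 a7 a8
    have hts : ∀ z ∈ tri x, z ≤ W := by
      intro z hz
      unfold tri at hz
      simp only [Finset.mem_insert, Finset.mem_singleton] at hz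
      omega
    rw [E_add]
    refine add_le_add ?_ ?_
    · refine dilate_bound n p h0 h1 (MC x) b1 b2 5 b3 X (x.1 ^ 2 * x.2 ^ 2) hX b4 ?_ (tri x)
        (htri x hx) (fun z hz => (hts z hz).trans hWX) hc3
      refine le_trans (Nat.mul_le_mul_left _ ?_) hXn
      calc x.1 ^ 2 * x.2 ^ 2 = (x.1 * x.2) ^ 2 := by ring
        _ ≤ W ^ 2 := Nat.pow_le_pow_left a6 2
    · refine dilate_bound n p h0 h1 (MD x) c1 c2 6 c3 Y (x.1 ^ 2 * x.2) hY c4 ?_ (tri x)
        (htri x hx) (fun z hz => (hts z hz).trans hWY) hc3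
      refine le_trans (Nat.mul_le_mul_left _ ?_) hYn
      calc x.1 ^ 2 * x.2 = x.1 * (x.1 * x.2) := by ring
        _ ≤ u * W := Nat.mul_le_mul a2 a6
  exact add_le_add hpart1 hpart2

end Pool.Agent.H78.PSchur
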