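import Mathlib
import Pool.Agent.H78.PSchurFinite

/-!
The choice of parameters and the asymptotic statement.
-/

open Finset

noncomputable section

namespace Pool.Agent.H78.PSchur

/-- The dyadic family of pairs `(a, b)`. -/
def fam (j G l : ℕ) : Finset (ℕ × ℕ) :=
  (Finset.range G).biUnion fun i =>
    Finset.Ico (2 ^ (j + i)) (2 ^ (j + i + 1)) ×ˢ
      Finset.Ioc (2 ^ (l - (j + i) - 1)) (2 ^ (l - (j + i)))

theorem fam_card {j G l : ℕ} (hl : 2 * (j + G) + 1 ≤ l) : (fam j G l).card = G * 2 ^ (l - 1) := by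
  unfold fam
  rw [Finset.card_biUnion]
  · rw [Finset.sum_congr rfl (g := fun _ => 2 ^ (l - 1))]
    · simp
    · intro i hi
      rw [Finset.mem_range] at hi
      rw [Finset.card_product, Nat.card_Ico, Nat.card_Ioc]
      have e1 : 2 ^ (j + i + 1) - 2 ^ (j + i) = 2 ^ (j + i) := by
        rw [pow_succ]
        omega
      have e2 : 2 ^ (l - (j + i)) - 2 ^ (l - (j + i) - 1) = 2 ^ (l - (j + i) - 1) := by
        obtain ⟨k, hk⟩ : ∃ k, l - (j + i) = k + 1 := ⟨l - (j + i) - 1, by omega⟩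
        rw [hk, Nat.add_sub_cancel, pow_succ]
        omega
      rw [e1, e2, ← pow_add]
      congr 1
      omega
  · intro i hi i' hi' hne
    rw [Function.onFun, Finset.disjoint_left]
    rintro ⟨a, b⟩ h1 h2
    rw [Finset.mem_product, Finset.mem_Ico] at h1 h2
    obtain ⟨⟨h1, h1'⟩, -⟩ := h1
    obtain ⟨⟨h2, h2'⟩, -⟩ := h2
    simp only at h1 h1' h2 h2'
    have k1 : j + i < j + i' + 1 := (Nat.pow_lt_pow_iff_right (by norm_num : 1 < 2)).1
      (lt_of_le_of_lt h1 h2')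
    have k2 : j + i' < j + i + 1 := (Nat.pow_lt_pow_iff_right (by norm_num : 1 < 2)).1
      (lt_of_le_of_lt h2 h1')
    exact hne (by omega)

theorem fam_prop {j G l : ℕ} (hj : 1 ≤ j) (hl : 2 * (j + G) + 1 ≤ l) (hl' : l + 1 ≤ 3 * j) :
    ∀ x ∈ fam j G l, 2 ≤ x.1 ∧ x.1 ≤ 2 ^ (j + G) ∧ 2 ^ (j + G) < x.2 ∧ x.2 ≤ 2 ^ (l - j) ∧
      2 ^ (l - j) < x.1 * x.2 ∧ x.1 * x.2 ≤ 2 ^ (l + 1) ∧ 2 * x.1 ≤ x.2 ∧ 2 * x.2 ≤ x.1 ^ 2 := by
  rintro ⟨a, b⟩ hx
  unfold fam at hx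
  rw [Finset.mem_biUnion] at hx
  obtain ⟨i, hi, hx⟩ := hx
  rw [Finset.mem_range] at hi
  rw [Finset.mem_product, Finset.mem_Ico, Finset.mem_Ioc] at hx
  obtain ⟨⟨h1, h2⟩, h3, h4⟩ := hx
  simp only at h1 h2 h3 h4 ⊢
  have q1 : 2 ^ 1 ≤ 2 ^ (j + i) := Nat.pow_le_pow_right (by norm_num) (by omega)
  have q2 : 2 ^ (j + i + 1) ≤ 2 ^ (j + G) := Nat.pow_le_pow_right (by norm_num) (by omega)
  have q3 : 2 ^ (j + G + 1) ≤ 2 ^ (l - (j + i) - 1) := Nat.pow_le_pow_right (by norm_num) (by omega)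
  have q4 : 2 ^ (l - (j + i)) ≤ 2 ^ (l - j) := Nat.pow_le_pow_right (by norm_num) (by omega)
  have q5 : 2 ^ (l - j) ≤ 2 ^ (l - 1) := Nat.pow_le_pow_right (by norm_num) (by omega)
  have q6 : 2 ^ (l - 1) < a * b := by
    calc 2 ^ (l - 1) = 2 ^ (j + i) * 2 ^ (l - (j + i) - 1) := by
          rw [← pow_add]
          congr 1
          omega
      _ < 2 ^ (j + i) * b := Nat.mul_lt_mul_of_pos_left h3 (by positivity)
      _ ≤ a * b := Nat.mul_le_mul_right _ h1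
  have q7 : a * b ≤ 2 ^ (l + 1) := by
    calc a * b ≤ 2 ^ (j + i + 1) * 2 ^ (l - (j + i)) := Nat.mul_le_mul h2.le h4
      _ = 2 ^ (l + 1) := by
          rw [← pow_add]
          congr 1
          omega
  have q8 : 2 * b ≤ a ^ 2 := by
    calc 2 * b ≤ 2 * 2 ^ (l - (j + i)) := Nat.mul_le_mul_left _ h4
      _ = 2 ^ (l - (j + i) + 1) := by rw [pow_succ]; ring
      _ ≤ 2 ^ (2 * (j + i)) := Nat.pow_le_pow_right (by norm_num) (by omega)
      _ = (2 ^ (j + i)) ^ 2 := by rw [mul_comm, pow_mul]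
      _ ≤ a ^ 2 := Nat.pow_le_pow_left h1 2
  have q9 : 2 ^ (j + G + 1) = 2 * 2 ^ (j + G) := by rw [pow_succ]; ring
  refine ⟨by omega, by omega, by omega, by omega, by omega, q7, by omega, q8⟩

open Classical in
theorem dyadic_bound (n j G l : ℕ) (r : ℝ) (hr : 1 ≤ r) (hj : 1 ≤ j) (hG : 1 ≤ G)
    (hl : 2 * (j + G) + 1 ≤ l) (hl' : l + 1 ≤ 3 * j) (X Y : ℕ)
    (hWX : 2 ^ (l + 1) ≤ X) (hWY : 2 ^ (l + 1) ≤ Y) (hXn : 2 * X * (2 ^ (l + 1)) ^ 2 ≤ n)
    (hYn : 2 * Y * (2 ^ (j + G) * 2 ^ (l + 1)) ≤ n) :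
    E (Finset.Icc 1 n) r⁻¹ (fun S => if ProductSchur (S : Set ℕ) then 0 else 1)
      ≤ 2 * r / (2 ^ j * G) + 4 * r * 2 ^ j * 2 ^ G / (G * 2 ^ l) + 2 * r ^ 3 / (G * 2 ^ l)
        + G * 2 ^ l * r ^ 2 / (2 * X) + G * 2 ^ l * r ^ 3 / (2 * Y) := by
  have hr0 : 0 < r := by linarith
  have hG0 : (0 : ℝ) < G := by exact_mod_cast hG
  have hXp : 0 < X := lt_of_lt_of_le (by positivity) hWX
  have hYp : 0 < Y := lt_of_lt_of_le (by positivity) hWY
  have hne : (fam j G l).Nonempty := by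
    rw [← Finset.card_pos, fam_card hl]
    have : 0 < 2 ^ (l - 1) := by positivity
    exact Nat.mul_pos hG this
  have h := fail_bound n r⁻¹ (inv_pos.2 hr0) (inv_le_one_of_one_le₀ hr) (fam j G l) hne
    (2 ^ (j + G)) (2 ^ (l - j)) (2 ^ (l + 1)) X Y (fam_prop hj hl hl') hXp hYp hWX hWY hXn hYn
  refine h.trans ?_
  rw [fam_card hl]
  have e1 : (2 : ℝ) ^ l = 2 ^ (l - 1) * 2 := by
    rw [← pow_succ]
    congr 1
    omega
  have e2 : (2 : ℝ) ^ l = 2 ^ (l - j) * 2 ^ j := by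
    rw [← pow_add]
    congr 1
    omega
  have e3 : (2 : ℝ) ^ (l - j) = 2 ^ l / 2 ^ j := by
    rw [e2]
    field_simp
  have e4 : (2 : ℝ) ^ (l - 1) = 2 ^ l / 2 := by
    rw [e1]
    field_simp
  push_cast
  rw [e3, e4, pow_add]
  have hXp' : (0 : ℝ) < X := by exact_mod_cast hXp
  have hYp' : (0 : ℝ) < Y := by exact_mod_cast hYp
  have hL : (0 : ℝ) < 2 ^ l := by positivity
  have hA : (0 : ℝ) < 2 ^ j := by positivity
  have hB : (0 : ℝ) < 2 ^ G := by positivity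
  generalize (2 : ℝ) ^ l = L at *
  generalize (2 : ℝ) ^ j = A at *
  generalize (2 : ℝ) ^ G = B at *
  apply le_of_eq
  field_simp
  ring

theorem half_le_floor (n m : ℕ) (hm : 0 < m) (h : 2 * m ≤ n) :
    (n : ℝ) / (2 * m) ≤ ((n / m : ℕ) : ℝ) := by
  have h1 : n < (n / m + 1) * m := by
    have := Nat.lt_div_mul_add (a := n) hm
    calc n < n / m * m + m := this
      _ = _ := by ring
  have h2 : 2 ≤ n / m := (Nat.le_div_iff_mul_le hm).2 h
  have hm' : (0 : ℝ) < m := by exact_mod_cast hm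
  rw [div_le_iff₀ (by positivity)]
  have h3 : (n : ℝ) ≤ ((n / m : ℕ) + 1) * m := by exact_mod_cast h1.le
  have h4 : (2 : ℝ) ≤ ((n / m : ℕ) : ℝ) := by exact_mod_cast h2
  nlinarith

open Classical in
theorem numeric_bound (n : ℕ) (hn : 0 < n) (r s lam x : ℝ) (hlam : lam = Real.log n)
    (hx : x = Real.exp (lam / 44)) (h400 : 400 ≤ lam) (hbig : 64 * lam ^ 11 ≤ x)
    (hr : x ^ 4 ≤ r) (hs : 1 ≤ s) (hrs : r ^ 11 * s ^ 4 = n * lam ^ 2) :
    E (Finset.Icc 1 n) r⁻¹ (fun S => if ProductSchur (S : Set ℕ) then 0 else 1)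
      ≤ 50 / lam + 1 / x + 208 / s := by
  have hn' : (0 : ℝ) < n := by exact_mod_cast hn
  have hlam0 : 0 < lam := by linarith
  have hlam1 : 1 ≤ lam := by linarith
  have hnx : (n : ℝ) = x ^ 44 := by
    rw [hx, ← Real.exp_nat_mul, hlam]
    push_cast
    rw [mul_div_cancel₀ _ (by norm_num : (44 : ℝ) ≠ 0), Real.exp_log hn']
  have hlampow : ∀ k : ℕ, 1 ≤ lam ^ k := fun k => one_le_pow₀ hlam1
  have hlammono : ∀ k : ℕ, k ≤ 11 → 64 * lam ^ k ≤ x := fun k hk =>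
    (mul_le_mul_of_nonneg_left (pow_le_pow_right₀ hlam1 hk) (by norm_num)).trans hbig
  have hx64 : 64 ≤ x := by
    have := hlammono 0 (by norm_num)
    simpa using this
  have hx1 : 1 ≤ x := by linarith
  have hx0 : 0 < x := by linarith
  have hr1 : 1 ≤ r := (one_le_pow₀ hx1).trans hr
  have hr0 : 0 < r := by linarith
  have hs0 : 0 < s := by linarith
  -- `s² ≤ lam`
  have hs2 : s ^ 2 ≤ lam := by
    have h1 : x ^ 44 ≤ r ^ 11 := by
      calc x ^ 44 = (x ^ 4) ^ 11 := by ring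
        _ ≤ r ^ 11 := pow_le_pow_left₀ (by positivity) hr 11
    have h2 : x ^ 44 * s ^ 4 ≤ x ^ 44 * lam ^ 2 := by
      calc x ^ 44 * s ^ 4 ≤ r ^ 11 * s ^ 4 := mul_le_mul_of_nonneg_right h1 (by positivity)
        _ = x ^ 44 * lam ^ 2 := by rw [hrs, hnx]
    have h3 : (s ^ 2) ^ 2 ≤ lam ^ 2 := by
      have := le_of_mul_le_mul_left h2 (by positivity)
      calc (s ^ 2) ^ 2 = s ^ 4 := by ring
        _ ≤ lam ^ 2 := this
    exact (pow_le_pow_iff_left₀ (by positivity) hlam0.le (by norm_num)).1 h3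
  -- `r ≤ x⁴ lam`
  have hrub : r ≤ x ^ 4 * lam := by
    have h1 : r ^ 11 ≤ (x ^ 4 * lam) ^ 11 := by
      calc r ^ 11 ≤ r ^ 11 * s ^ 4 := le_mul_of_one_le_right (by positivity) (one_le_pow₀ hs)
        _ = x ^ 44 * lam ^ 2 := by rw [hrs, hnx]
        _ ≤ x ^ 44 * lam ^ 11 := by
            refine mul_le_mul_of_nonneg_left (pow_le_pow_right₀ hlam1 (by norm_num))
              (by positivity)
        _ = _ := by ring
    exact (pow_le_pow_iff_left₀ hr0.le (by positivity) (by norm_num)).1 h1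
  have hrpow : ∀ k : ℕ, r ^ k ≤ x ^ (4 * k) * lam ^ k := fun k => by
    calc r ^ k ≤ (x ^ 4 * lam) ^ k := pow_le_pow_left₀ hr0.le hrub k
      _ = _ := by rw [mul_pow, ← pow_mul]
  -- the quantity `κ`
  obtain ⟨κ, hκ⟩ : ∃ κ : ℝ, κ = s / lam := ⟨_, rfl⟩
  have hκ0 : 0 < κ := by rw [hκ]; positivity
  have hκlam : κ * lam = s := by rw [hκ]; field_simp
  have hκ1 : κ ≤ 1 := by
    rw [hκ, div_le_one hlam0]
    nlinarith
  have hκl : 1 ≤ κ * lam := by rw [hκlam]; exact hs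
  -- choice of the exponents
  have hy1 : 1 ≤ κ * r ^ 3 := by
    have h1 : x ^ 12 ≤ r ^ 3 := by
      calc x ^ 12 = (x ^ 4) ^ 3 := by ring
        _ ≤ r ^ 3 := pow_le_pow_left₀ (by positivity) hr 3
    have h2 : lam ≤ r ^ 3 := by
      have := hlammono 1 (by norm_num)
      rw [pow_one] at this
      calc lam ≤ x := by linarith
        _ ≤ x ^ 12 := le_self_pow₀ hx1 (by norm_num)
        _ ≤ r ^ 3 := h1
    calc 1 ≤ κ * lam := hκl
      _ ≤ κ * r ^ 3 := mul_le_mul_of_nonneg_left h2 hκ0.le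
  obtain ⟨l, hl1, hl2⟩ := exists_nat_pow_near hy1 (by norm_num : (1 : ℝ) < 2)
  obtain ⟨j, hj1, hj2⟩ := exists_nat_pow_near (show (1 : ℝ) ≤ 4 * r by linarith)
    (by norm_num : (1 : ℝ) < 2)
  obtain ⟨G, hG⟩ : ∃ G : ℕ, G = ⌊lam / 44⌋₊ := ⟨_, rfl⟩
  have hGle : (G : ℝ) ≤ lam / 44 := by
    rw [hG]
    exact Nat.floor_le (by positivity)
  have hGge : lam / 50 ≤ G := by
    have : lam / 44 < G + 1 := by
      rw [hG]
      exact Nat.lt_floor_add_one _
    linarith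
  have hGlam : (G : ℝ) ≤ lam := by linarith
  have hG1' : (1 : ℝ) ≤ G := by linarith
  have hG1 : 1 ≤ G := by exact_mod_cast hG1'
  have hG0 : (0 : ℝ) < G := by linarith
  have hB : (2 : ℝ) ^ G ≤ x := by
    calc (2 : ℝ) ^ G ≤ (Real.exp 1) ^ G :=
          pow_le_pow_left₀ (by norm_num) (by have := Real.add_one_le_exp (1 : ℝ); linarith) G
      _ = Real.exp G := by rw [← Real.exp_nat_mul, mul_one]
      _ ≤ x := by rw [hx]; exact Real.exp_le_exp.2 hGle
  have hL0 : (0 : ℝ) < 2 ^ l := by positivity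
  have hA0 : (0 : ℝ) < 2 ^ j := by positivity
  have hB0 : (0 : ℝ) < 2 ^ G := by positivity
  have hB1 : (1 : ℝ) ≤ 2 ^ G := one_le_pow₀ (by norm_num)
  have hL2 : κ * r ^ 3 < 2 * 2 ^ l := by
    calc κ * r ^ 3 < 2 ^ (l + 1) := hl2
      _ = 2 * 2 ^ l := by ring
  have hA2 : 2 * r < 2 ^ j := by
    have : 4 * r < 2 ^ j * 2 := by
      calc 4 * r < 2 ^ (j + 1) := hj2
        _ = _ := by ring
    linarith
  have hLr3 : (2 : ℝ) ^ l ≤ r ^ 3 := by
    calc (2 : ℝ) ^ l ≤ κ * r ^ 3 := hl1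
      _ ≤ 1 * r ^ 3 := mul_le_mul_of_nonneg_right hκ1 (by positivity)
      _ = r ^ 3 := one_mul _
  -- inequalities between exponents
  have hj : 1 ≤ j := by
    rcases Nat.eq_zero_or_pos j with h | h
    · rw [h, pow_zero] at hA2
      linarith
    · exact h
  have hlbig : 2 * (j + G) + 1 ≤ l := by
    have h1 : (2 : ℝ) ^ (2 * (j + G) + 1) ≤ 2 ^ l := by
      have e1 : (2 : ℝ) ^ (2 * (j + G) + 1) = 2 * (2 ^ j) ^ 2 * (2 ^ G) ^ 2 := by
        rw [pow_add, mul_add, pow_add, pow_mul', pow_mul']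
        ring
      have h2 : (2 : ℝ) * (2 ^ j) ^ 2 * (2 ^ G) ^ 2 ≤ 2 * (4 * r) ^ 2 * x ^ 2 := by
        gcongr
      have h3 : 64 * x ^ 2 ≤ κ * r := by
        have h4 : lam * (64 * x ^ 2) ≤ lam * (κ * r) := by
          have h5 := hlammono 1 (by norm_num)
          rw [pow_one] at h5
          calc lam * (64 * x ^ 2) = (64 * lam) * x ^ 2 := by ring
            _ ≤ x * x ^ 2 := mul_le_mul_of_nonneg_right h5 (by positivity)
            _ ≤ x ^ 4 := by
                rw [show x * x ^ 2 = x ^ 3 by ring]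
                exact pow_le_pow_right₀ hx1 (by norm_num)
            _ ≤ r := hr
            _ ≤ (κ * lam) * r := le_mul_of_one_le_left hr0.le hκl
            _ = lam * (κ * r) := by ring
        exact le_of_mul_le_mul_left h4 hlam0
      rw [e1]
      refine h2.trans ?_
      have h6 : 2 * (4 * r) ^ 2 * x ^ 2 = (64 * x ^ 2) * r ^ 2 / 2 := by ring
      rw [h6]
      have h7 : (64 * x ^ 2) * r ^ 2 ≤ κ * r * r ^ 2 :=
        mul_le_mul_of_nonneg_right h3 (by positivity)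
      have h8 : κ * r * r ^ 2 = κ * r ^ 3 := by ring
      linarith
    exact (pow_le_pow_iff_right₀ (by norm_num : (1 : ℝ) < 2)).1 h1
  have hlj : l + 1 ≤ 3 * j := by
    have h1 : (2 : ℝ) ^ (l + 1) ≤ 2 ^ (3 * j) := by
      calc (2 : ℝ) ^ (l + 1) = 2 * 2 ^ l := by ring
        _ ≤ 2 * r ^ 3 := by linarith
        _ ≤ (2 * r) ^ 3 := by nlinarith [pow_pos hr0 3]
        _ ≤ (2 ^ j) ^ 3 := pow_le_pow_left₀ (by positivity) hA2.le 3
        _ = 2 ^ (3 * j) := by rw [pow_mul']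
    exact (pow_le_pow_iff_right₀ (by norm_num : (1 : ℝ) < 2)).1 h1
  -- the choice of `X`
  have hr9 : 32 * r ^ 9 ≤ n := by
    rw [hnx]
    calc 32 * r ^ 9 ≤ 32 * (x ^ (4 * 9) * lam ^ 9) :=
          mul_le_mul_of_nonneg_left (hrpow 9) (by norm_num)
      _ = 32 * (lam ^ 9 * x ^ 36) := by ring
      _ ≤ (64 * lam ^ 9) * x ^ 36 := by
          have : 0 ≤ lam ^ 9 * x ^ 36 := by positivity
          linarith
      _ ≤ x * x ^ 36 := mul_le_mul_of_nonneg_right (hlammono 9 (by norm_num)) (by positivity)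
      _ = x ^ 37 := by ring
      _ ≤ x ^ 44 := pow_le_pow_right₀ hx1 (by norm_num)
  have hr7 : 64 * x * r ^ 7 ≤ n := by
    rw [hnx]
    calc 64 * x * r ^ 7 ≤ 64 * x * (x ^ (4 * 7) * lam ^ 7) :=
          mul_le_mul_of_nonneg_left (hrpow 7) (by positivity)
      _ = (64 * lam ^ 7) * x ^ 29 := by ring
      _ ≤ x * x ^ 29 := mul_le_mul_of_nonneg_right (hlammono 7 (by norm_num)) (by positivity)
      _ = x ^ 30 := by ring
      _ ≤ x ^ 44 := pow_le_pow_right₀ hx1 (by norm_num)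
  have hL3 : 32 * ((2 : ℝ) ^ l) ^ 3 ≤ n := by
    calc 32 * ((2 : ℝ) ^ l) ^ 3 ≤ 32 * (r ^ 3) ^ 3 := by gcongr
      _ = 32 * r ^ 9 := by ring
      _ ≤ n := hr9
  have hL1 : (1 : ℝ) ≤ 2 ^ l := one_le_pow₀ (by norm_num)
  have hABL : 16 * (2 : ℝ) ^ j * 2 ^ G * (2 ^ l) ^ 2 ≤ n := by
    calc 16 * (2 : ℝ) ^ j * 2 ^ G * (2 ^ l) ^ 2 ≤ 16 * (4 * r) * x * (r ^ 3) ^ 2 := by gcongr
      _ = 64 * x * r ^ 7 := by ring
      _ ≤ n := hr7
  set mX : ℕ := 2 * (2 ^ (l + 1)) ^ 2 with hmX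
  set mY : ℕ := 2 * (2 ^ (j + G) * 2 ^ (l + 1)) with hmY
  have hmXp : 0 < mX := by positivity
  have hmYp : 0 < mY := by positivity
  have hmXr : (mX : ℝ) = 8 * (2 ^ l) ^ 2 := by
    rw [hmX]
    push_cast
    ring
  have hmYr : (mY : ℝ) = 4 * 2 ^ j * 2 ^ G * 2 ^ l := by
    rw [hmY]
    push_cast
    ring
  have hX2 : 2 * mX ≤ n := by
    have : (2 : ℝ) * mX ≤ n := by
      rw [hmXr]
      have : ((2 : ℝ) ^ l) ^ 2 ≤ ((2 : ℝ) ^ l) ^ 3 := pow_le_pow_right₀ hL1 (by norm_num)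
      nlinarith
    exact_mod_cast this
  have hY2 : 2 * mY ≤ n := by
    have : (2 : ℝ) * mY ≤ n := by
      rw [hmYr]
      have h1 : (2 : ℝ) ^ l ≤ ((2 : ℝ) ^ l) ^ 2 := le_self_pow₀ hL1 (by norm_num)
      have h2 : 0 < (2 : ℝ) ^ j * 2 ^ G := by positivity
      have h3 := mul_le_mul_of_nonneg_left h1 h2.le
      nlinarith [mul_pos h2 hL0]
    exact_mod_cast this
  have hXr := half_le_floor n mX hmXp hX2
  have hYr := half_le_floor n mY hmYp hY2
  rw [hmXr] at hXr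
  rw [hmYr] at hYr
  have hWX : 2 ^ (l + 1) ≤ n / mX := by
    have : ((2 ^ (l + 1) : ℕ) : ℝ) ≤ ((n / mX : ℕ) : ℝ) := by
      refine le_trans ?_ hXr
      push_cast
      rw [le_div_iff₀ (by positivity)]
      calc (2 : ℝ) ^ (l + 1) * (2 * (8 * ((2 : ℝ) ^ l) ^ 2)) = 32 * ((2 : ℝ) ^ l) ^ 3 := by ring
        _ ≤ (n : ℝ) := hL3
    exact_mod_cast this
  have hWY : 2 ^ (l + 1) ≤ n / mY := by
    have : ((2 ^ (l + 1) : ℕ) : ℝ) ≤ ((n / mY : ℕ) : ℝ) := by
      refine le_trans ?_ hYr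
      push_cast
      rw [le_div_iff₀ (by positivity)]
      calc (2 : ℝ) ^ (l + 1) * (2 * (4 * (2 : ℝ) ^ j * (2 : ℝ) ^ G * (2 : ℝ) ^ l))
          = 16 * (2 : ℝ) ^ j * (2 : ℝ) ^ G * ((2 : ℝ) ^ l) ^ 2 := by ring
        _ ≤ (n : ℝ) := hABL
    exact_mod_cast this
  have hmain := dyadic_bound n j G l r hr1 hj hG1 hlbig hlj (n / mX) (n / mY) hWX hWY
    (by
      calc 2 * (n / mX) * (2 ^ (l + 1)) ^ 2 = n / mX * mX := by rw [hmX]; ring
        _ ≤ n := Nat.div_mul_le_self n mX)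
    (by
      calc 2 * (n / mY) * (2 ^ (j + G) * 2 ^ (l + 1)) = n / mY * mY := by rw [hmY]; ring
        _ ≤ n := Nat.div_mul_le_self n mY)
  refine hmain.trans ?_
  have hXpos : (0 : ℝ) < ((n / mX : ℕ) : ℝ) := lt_of_lt_of_le (by positivity) hXr
  have hYpos : (0 : ℝ) < ((n / mY : ℕ) : ℝ) := lt_of_lt_of_le (by positivity) hYr
  generalize ((n / mX : ℕ) : ℝ) = X at *
  generalize ((n / mY : ℕ) : ℝ) = Y at *
  generalize (2 : ℝ) ^ l = L at *
  generalize (2 : ℝ) ^ j = A at *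
  generalize (2 : ℝ) ^ G = B at *
  -- term 1
  have t1 : 2 * r / (A * G) ≤ 50 / lam := by
    rw [div_le_div_iff₀ (by positivity) hlam0]
    have h1 : 2 * r * lam ≤ A * lam := mul_le_mul_of_nonneg_right hA2.le hlam0.le
    have h2 : A * lam ≤ A * (50 * G) := mul_le_mul_of_nonneg_left (by linarith) hA0.le
    linarith
  -- term 2
  have t2 : 4 * r * A * B / (G * L) ≤ 1 / (2 * x) := by
    rw [div_le_div_iff₀ (by positivity) (by positivity)]
    -- 8 r A B x ≤ G L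
    have h1 : 4 * r * A * B * (2 * x) ≤ 4 * r * (4 * r) * x * (2 * x) := by gcongr
    have h2 : 4 * r * (4 * r) * x * (2 * x) = 32 * r ^ 2 * x ^ 2 := by ring
    have h3 : lam * (64 * x ^ 2) ≤ lam * (κ * r) := by
      have h5 := hlammono 1 (by norm_num)
      rw [pow_one] at h5
      calc lam * (64 * x ^ 2) = (64 * lam) * x ^ 2 := by ring
        _ ≤ x * x ^ 2 := mul_le_mul_of_nonneg_right h5 (by positivity)
        _ ≤ x ^ 4 := by
            rw [show x * x ^ 2 = x ^ 3 by ring]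
            exact pow_le_pow_right₀ hx1 (by norm_num)
        _ ≤ r := hr
        _ ≤ (κ * lam) * r := le_mul_of_one_le_left hr0.le hκl
        _ = lam * (κ * r) := by ring
    have h4 : 64 * x ^ 2 ≤ κ * r := le_of_mul_le_mul_left h3 hlam0
    have h6 : (64 * x ^ 2) * r ^ 2 ≤ κ * r * r ^ 2 :=
      mul_le_mul_of_nonneg_right h4 (by positivity)
    have h7 : κ * r * r ^ 2 = κ * r ^ 3 := by ring
    have h8 : L ≤ G * L := le_mul_of_one_le_left hL0.le hG1'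
    linarith
  -- term 3
  have t3 : 2 * r ^ 3 / (G * L) ≤ 200 / s := by
    rw [div_le_div_iff₀ (by positivity) hs0]
    have h1 : 2 * r ^ 3 * s = 2 * lam * (κ * r ^ 3) := by rw [← hκlam]; ring
    rw [h1]
    calc 2 * lam * (κ * r ^ 3) ≤ 2 * lam * (2 * L) := by gcongr
      _ = 4 * lam * L := by ring
      _ ≤ 4 * (50 * G) * L := by
          have : lam ≤ 50 * G := by linarith
          gcongr
      _ = 200 * (G * L) := by ring
  -- term 4
  have t4 : G * L * r ^ 2 / (2 * X) ≤ 8 / s := by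
    have h0 : n / (2 * (8 * L ^ 2)) ≤ X := hXr
    rw [div_le_iff₀ (by positivity)] at h0
    rw [div_le_div_iff₀ (by positivity) hs0]
    have h1 : (G * L * r ^ 2 * s) * n ≤ (8 * (2 * X)) * n := by
      calc (G * L * r ^ 2 * s) * n ≤ (G * L * r ^ 2 * s) * (X * (2 * (8 * L ^ 2))) := by gcongr
        _ = 16 * X * s * G * r ^ 2 * L ^ 3 := by ring
        _ ≤ 16 * X * s * lam * r ^ 2 * (κ * r ^ 3) ^ 3 := by gcongr
        _ = 16 * X * s * lam * κ ^ 3 * r ^ 11 := by ring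
        _ = 16 * X * n := by
            have h2 : s * lam * κ ^ 3 * r ^ 11 = n := by
              have h3 : lam ^ 2 * (s * lam * κ ^ 3 * r ^ 11) = lam ^ 2 * n := by
                calc lam ^ 2 * (s * lam * κ ^ 3 * r ^ 11) = r ^ 11 * (s * (κ * lam) ^ 3) := by ring
                  _ = r ^ 11 * s ^ 4 := by rw [hκlam]; ring
                  _ = lam ^ 2 * n := by rw [hrs]; ring
              exact mul_left_cancel₀ (by positivity) h3
            calc 16 * X * s * lam * κ ^ 3 * r ^ 11 = 16 * X * (s * lam * κ ^ 3 * r ^ 11) := by ring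
              _ = _ := by rw [h2]
        _ = (8 * (2 * X)) * n := by ring
    exact le_of_mul_le_mul_right h1 hn'
  -- term 5
  have t5 : G * L * r ^ 3 / (2 * Y) ≤ 1 / (2 * x) := by
    have h0 : n / (2 * (4 * A * B * L)) ≤ Y := hYr
    rw [div_le_iff₀ (by positivity)] at h0
    rw [div_le_div_iff₀ (by positivity) (by positivity)]
    have h1 : (G * L * r ^ 3 * (2 * x)) * n ≤ (1 * (2 * Y)) * n := by
      calc (G * L * r ^ 3 * (2 * x)) * n
          ≤ (G * L * r ^ 3 * (2 * x)) * (Y * (2 * (4 * A * B * L))) := by gcongr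
        _ = 16 * Y * x * G * A * B * r ^ 3 * L ^ 2 := by ring
        _ ≤ 16 * Y * x * lam * (4 * r) * x * r ^ 3 * (r ^ 3) ^ 2 := by gcongr
        _ = Y * (64 * x ^ 2 * lam * r ^ 10) := by ring
        _ ≤ Y * (64 * x ^ 2 * lam * (x ^ (4 * 10) * lam ^ 10)) := by
            have := hrpow 10
            gcongr
        _ = Y * ((64 * lam ^ 11) * x ^ 42) := by ring
        _ ≤ Y * (x * x ^ 42) := by gcongr
        _ = Y * x ^ 43 := by ring
        _ ≤ Y * x ^ 44 := by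
            have := pow_le_pow_right₀ hx1 (show 43 ≤ 44 by norm_num)
            gcongr
        _ = Y * n := by rw [hnx]
        _ ≤ (1 * (2 * Y)) * n := by nlinarith [mul_pos hYpos hn']
    exact le_of_mul_le_mul_right h1 hn'
  have t6 : 1 / (2 * x) + 1 / (2 * x) = 1 / x := by field_simp; norm_num
  have t7 : 200 / s + 8 / s = 208 / s := by rw [← add_div]; norm_num
  linarith

end Pool.Agent.H78.PSchur
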