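import Pool.Agent.SKS.Iter

/-!
# SKS: the order at limits of countable cofinality (audit remark of helper78)

A possible further clause of `IsSacksIteration`: at a limit of countable cofinality the order of
`Q_S` is the order of the inverse limit.
-/

set_option autoImplicit false

namespace SKS

open CofSN CpB Cardinal

/-- At the union `S` of the initial segments `S n` the order of `Q_S` is the order of the inverse
limit: `q ≤ p` as soon as all the restrictions of `q` are below those of `p`. -/
theorem lim_le {W : Type} [LinearOrder W] [WellFoundedLT W] (S : ℕ → Set W)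
    (hS : ∀ n, IsLowerSet (S n)) (hm : Monotone S) (p q : CondI (⋃ n, S n))
    (h : ∀ n, rs (S n) (hS n) q.1 ≤ rs (S n) (hS n) p.1) : q ≤ p := by
  classical
  change Set.range q.1.f ⊆ Set.range p.1.f
  rintro _ ⟨x, rfl⟩
  have h1 : ∀ n, ∃ y, ∀ j ∈ S n, p.1.f y j = q.1.f x j := by
    intro n
    have h2 : Set.range (rstS (S n) q.1.f) ⊆ Set.range (rstS (S n) p.1.f) := h n
    obtain ⟨y, hy⟩ := h2 ⟨x, rfl⟩
    refine ⟨y, fun j hj => ?_⟩
    have h3 := congrFun hy j
    rwa [rstS_in hj, rstS_in hj] at h3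
  choose y hy using h1
  have h4 : ∀ n m, n ≤ m → ∀ j ∈ S n, y n j = y m j := by
    intro n m hnm
    refine (p.1.pk.keeps (S n) (hS n) (y n) (y m)).2 fun j hj => ?_
    rw [hy n j hj, hy m j (hm hnm hj)]
  have h5 : ∀ n m, ∀ j, j ∈ S n → j ∈ S m → y n j = y m j := by
    intro n m j hn hm'
    rcases le_total n m with hnm | hnm
    · exact h4 n m hnm j hn
    · exact (h4 m n hnm j hm').symm
  let z : Pt W := fun j => if hj : ∃ n, j ∈ S n then y hj.choose j else x j
  have hz : ∀ n, ∀ j ∈ S n, z j = y n j := by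
    intro n j hj
    have hj' : ∃ n, j ∈ S n := ⟨n, hj⟩
    have : z j = y hj'.choose j := dif_pos hj'
    rw [this]
    exact h5 _ _ j hj'.choose_spec hj
  refine ⟨z, ?_⟩
  funext j
  by_cases hj : ∃ n, j ∈ S n
  · obtain ⟨n, hj⟩ := hj
    have h6 := (p.1.pk.keeps (S n) (hS n) z (y n)).1 (hz n) j hj
    rw [h6, hy n j hj]
  · have hj' : j ∉ ⋃ n, S n := by simpa using hj
    rw [p.2 z j hj', q.2 x j hj']
    exact dif_neg hj

end SKS
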